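import Pool.Agent.Helper51.OJM.Defs

namespace Pool.Agent.Helper51.OJM

open Equiv Finset

variable {n : ℕ}

theorem partner_val (x : Fin (2 * n)) :
    (partner n x : ℕ) = if (x : ℕ) % 2 = 0 then (x : ℕ) + 1 else (x : ℕ) - 1 := by
  unfold partner
  split_ifs <;> rfl

theorem partner_partner (x : Fin (2 * n)) : partner n (partner n x) = x := by
  apply Fin.ext
  rw [partner_val, partner_val]
  split_ifs <;> omega

theorem partner_ne (x : Fin (2 * n)) : partner n x ≠ x := by
  intro h
  have := congrArg Fin.val h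
  rw [partner_val] at this
  split_ifs at this <;> omega

/-- the involution as a permutation -/
def tau (n : ℕ) : Perm (Fin (2 * n)) := Function.Involutive.toPerm (partner n) partner_partner

@[simp] theorem tau_apply (x : Fin (2 * n)) : tau n x = partner n x := rfl

theorem tau_mul_tau : tau n * tau n = 1 := by
  ext x; simp [partner_partner]

theorem tau_inv : (tau n)⁻¹ = tau n := inv_eq_of_mul_eq_one_right tau_mul_tau

theorem inH_iff (σ : Perm (Fin (2 * n))) : InH n σ ↔ σ * tau n = tau n * σ := by
  constructor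
  · intro h; ext x; simp [h x]
  · intro h x
    have := congrArg (fun π : Perm (Fin (2 * n)) => π x) h
    simpa using this

theorem inH_one : InH n 1 := fun _ => rfl

theorem inH_mul {σ ρ : Perm (Fin (2 * n))} (h1 : InH n σ) (h2 : InH n ρ) : InH n (σ * ρ) := by
  intro x; simp [h1 _, h2 _]

theorem inH_inv {σ : Perm (Fin (2 * n))} (h : InH n σ) : InH n σ⁻¹ := by
  rw [inH_iff] at h ⊢
  have := congrArg (fun ρ => σ⁻¹ * ρ * σ⁻¹) h
  simp only [mul_assoc, mul_inv_cancel, mul_one, inv_mul_cancel_left] at this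
  rw [this]

/-- the matching (fixed point free involution) attached to `σ` -/
def mat (σ : Perm (Fin (2 * n))) : Perm (Fin (2 * n)) := σ * tau n * σ⁻¹

theorem mat_mul_mat (σ : Perm (Fin (2 * n))) : mat σ * mat σ = 1 := by
  unfold mat
  have : σ * tau n * σ⁻¹ * (σ * tau n * σ⁻¹) = σ * (tau n * tau n) * σ⁻¹ := by group
  rw [this, tau_mul_tau]; group

theorem mat_mat (σ : Perm (Fin (2 * n))) (x) : mat σ (mat σ x) = x := by
  have := congrArg (fun π : Perm (Fin (2 * n)) => π x) (mat_mul_mat σ)
  simpa using this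

theorem mat_ne (σ : Perm (Fin (2 * n))) (x) : mat σ x ≠ x := by
  intro h
  have h1 : σ (partner n (σ⁻¹ x)) = σ (σ⁻¹ x) := by
    have : σ (σ⁻¹ x) = x := by simp
    rw [this]; exact h
  exact partner_ne _ (σ.injective h1)

theorem mat_eq_tau (σ : Perm (Fin (2 * n))) : mat σ = tau n ↔ InH n σ := by
  rw [inH_iff]; unfold mat
  constructor
  · intro h
    have := congrArg (fun ρ => ρ * σ) h
    simpa [mul_assoc] using this
  · intro h; rw [h]; group

theorem mat_mul_right {σ h : Perm (Fin (2 * n))} (hh : InH n h) : mat (σ * h) = mat σ := by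
  rw [inH_iff] at hh
  unfold mat
  have : σ * h * tau n * (σ * h)⁻¹ = σ * (h * tau n) * h⁻¹ * σ⁻¹ := by group
  rw [this, hh]; group

theorem mat_mul_left (σ h : Perm (Fin (2 * n))) : mat (h * σ) = h * mat σ * h⁻¹ := by
  unfold mat; group

theorem mat_eq_iff {σ ρ : Perm (Fin (2 * n))} : mat σ = mat ρ ↔ InH n (σ⁻¹ * ρ) := by
  rw [← mat_eq_tau, mat_mul_left]
  constructor
  · intro h; rw [← h]; unfold mat; group
  · intro h
    have h2 : mat ρ = σ * tau n * σ⁻¹ := by rw [← h]; group
    rw [h2]; rfl

/-- block of a letter -/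
def blk (x : Fin (2 * n)) : Fin n := ⟨(x : ℕ) / 2, by omega⟩

theorem blk_partner (x : Fin (2 * n)) : blk (partner n x) = blk x := by
  apply Fin.ext
  unfold blk
  simp only [partner_val]
  split_ifs <;> omega

theorem blk_eq_iff {x y : Fin (2 * n)} : blk x = blk y ↔ y = x ∨ y = partner n x := by
  constructor
  · intro h
    have h1 : (x : ℕ) / 2 = (y : ℕ) / 2 := congrArg Fin.val h
    by_cases hxy : (x : ℕ) = y
    · left; exact Fin.ext hxy.symm
    · right; apply Fin.ext; rw [partner_val]; split_ifs <;> omega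
  · rintro (rfl | rfl)
    · rfl
    · rw [blk_partner]

/-- the even letter of block `j` -/
def od (j : Fin n) : Fin (2 * n) := ⟨2 * j, by omega⟩

theorem od_val (j : Fin n) : (od j : ℕ) = 2 * j := rfl

theorem blk_od (j : Fin n) : blk (od j) = j := by
  apply Fin.ext; unfold blk od; simp

theorem od_injective : Function.Injective (od : Fin n → Fin (2 * n)) := by
  intro a b h; rw [← blk_od a, h, blk_od]

theorem partner_od_val (j : Fin n) : (partner n (od j) : ℕ) = 2 * j + 1 := by
  rw [partner_val, od_val]; simp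

end Pool.Agent.Helper51.OJM
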