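import Pool.Agent.Helper51.OJM.Basic

namespace Pool.Agent.Helper51.OJM

open Equiv Finset
open scoped IsMulCommutative

variable {n : ℕ}

theorem oddJM_def (k : Fin n) : oddJM n k =
    ∑ i ∈ univ.filter (fun i : Fin (2 * n) => (i : ℕ) < 2 * k),
      MonoidAlgebra.single (swap i (od k)) (1 : ℂ) := rfl

/-- a permutation of the letters `< 2l` commutes with `oddJM l` -/
theorem single_comm_oddJM (l : Fin n) (w : Perm (Fin (2 * n)))
    (hw : ∀ x : Fin (2 * n), 2 * (l : ℕ) ≤ x → w x = x) :
    Commute (MonoidAlgebra.single w (1 : ℂ)) (oddJM n l) := by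
  have hlt : ∀ x : Fin (2 * n), (x : ℕ) < 2 * l → ((w x : Fin (2 * n)) : ℕ) < 2 * l := by
    intro x hx
    by_contra hcon
    have h1 := hw (w x) (by omega)
    have h2 := w.injective h1
    rw [h2] at hcon; exact hcon hx
  have hlt' : ∀ x : Fin (2 * n), (x : ℕ) < 2 * l → ((w⁻¹ x : Fin (2 * n)) : ℕ) < 2 * l := by
    intro x hx
    by_contra hcon
    have h1 := hw (w⁻¹ x) (by omega)
    have h2 : w (w⁻¹ x) = x := by simp
    rw [h2] at h1
    rw [← h1] at hcon; exact hcon hx
  unfold Commute SemiconjBy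
  rw [oddJM_def, Finset.mul_sum, Finset.sum_mul]
  refine Finset.sum_bij' (fun i _ => w i) (fun i _ => w⁻¹ i) ?_ ?_ ?_ ?_ ?_
  · intro i hi
    simp only [Finset.mem_filter, Finset.mem_univ, true_and] at hi ⊢
    exact hlt i hi
  · intro i hi
    simp only [Finset.mem_filter, Finset.mem_univ, true_and] at hi ⊢
    exact hlt' i hi
  · intro i _; simp
  · intro i _; simp
  · intro i hi
    simp only [Finset.mem_filter, Finset.mem_univ, true_and] at hi
    rw [MonoidAlgebra.single_mul_single, MonoidAlgebra.single_mul_single]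
    congr 1
    have : w (od l) = od l := hw _ (by rw [od_val])
    calc w * swap i (od l) = w * swap i (od l) * w⁻¹ * w := by group
      _ = swap (w i) (w (od l)) * w := by rw [Equiv.mul_swap_eq_swap_mul]; group
      _ = swap (w i) (od l) * w := by rw [this]

theorem oddJM_comm_of_lt {j l : Fin n} (h : j < l) : Commute (oddJM n j) (oddJM n l) := by
  rw [oddJM_def j]
  apply Commute.sum_left
  intro i hi
  simp only [Finset.mem_filter, Finset.mem_univ, true_and] at hi
  apply single_comm_oddJM
  intro x hx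
  have hjl : (j : ℕ) < l := h
  apply swap_apply_of_ne_of_ne
  · intro h; rw [h] at hx; omega
  · intro h; rw [h, od_val] at hx; omega

theorem oddJM_comm (j l : Fin n) : Commute (oddJM n j) (oddJM n l) := by
  rcases lt_trichotomy j l with h | h | h
  · exact oddJM_comm_of_lt h
  · rw [h]
  · exact (oddJM_comm_of_lt h).symm

/-- the commutative algebra generated by the odd Jucys–Murphy elements -/
noncomputable def JA (n : ℕ) : Subalgebra ℂ (GA n) := Algebra.adjoin ℂ (Set.range (oddJM n))

instance : IsMulCommutative (JA n) :=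
  Algebra.isMulCommutative_adjoin ℂ (by
    rintro _ ⟨j, rfl⟩ _ ⟨l, rfl⟩
    exact oddJM_comm j l)

/-- generators of `JA` -/
noncomputable def JAgen (j : Fin n) : JA n := ⟨oddJM n j, Algebra.subset_adjoin ⟨j, rfl⟩⟩

/-- evaluation as an algebra homomorphism -/
noncomputable def ev (n : ℕ) : MvPolynomial (Fin n) ℂ →ₐ[ℂ] GA n :=
  (JA n).val.comp (MvPolynomial.aeval (R := ℂ) (JAgen (n := n)))

theorem ev_X (j : Fin n) : ev n (MvPolynomial.X j) = oddJM n j := by
  unfold ev
  rw [AlgHom.comp_apply, MvPolynomial.aeval_X]; rfl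

theorem ev_eq (F : MvPolynomial (Fin n) ℂ) : ev n F =
    ∑ m ∈ F.support, F.coeff m • (List.ofFn fun j : Fin n => oddJM n j ^ m j).prod := by
  conv_lhs => rw [MvPolynomial.as_sum F]
  rw [map_sum]
  apply Finset.sum_congr rfl
  intro m _
  rw [MvPolynomial.monomial_eq, map_mul, Finsupp.prod_fintype _ _ (fun i => pow_zero _)]
  rw [← MvPolynomial.algebraMap_eq, AlgHom.commutes, ← Algebra.smul_def]
  congr 1
  rw [← List.prod_ofFn, map_list_prod, List.map_ofFn]
  congr 2
  funext j
  simp only [Function.comp_apply]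
  rw [map_pow, ev_X]

end Pool.Agent.Helper51.OJM
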