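import Pool.Agent.Helper51.OJM.Basic

namespace Pool.Agent.Helper51.OJM

open Equiv Finset

variable {n : ℕ}

/-- `m` agrees with `partner` on the letters `≥ 2k` -/
def Agree (k : ℕ) (m : Perm (Fin (2 * n))) : Prop := ∀ x : Fin (2 * n), 2 * k ≤ (x : ℕ) → m x = partner n x

/-- colourings of the blocks compatible with `m`, vanishing on blocks `≥ k` -/
def colSet (q k : ℕ) (m : Perm (Fin (2 * n))) : Finset (Fin n → Fin (q + 1)) :=
  univ.filter (fun f => (∀ x, f (blk (m x)) = f (blk x)) ∧ ∀ j : Fin n, k ≤ (j : ℕ) → f j = 0)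

open Classical in
/-- the weight -/
noncomputable def N (q k : ℕ) (m : Perm (Fin (2 * n))) : ℕ :=
  if Agree k m then (colSet q k m).card else 0

theorem colSet_mem {q k : ℕ} {m : Perm (Fin (2 * n))} {f : Fin n → Fin (q + 1)} :
    f ∈ colSet q k m ↔ (∀ x, f (blk (m x)) = f (blk x)) ∧ ∀ j : Fin n, k ≤ (j : ℕ) → f j = 0 := by
  unfold colSet; simp

theorem blk_val (x : Fin (2 * n)) : (blk x : ℕ) = (x : ℕ) / 2 := rfl

/-- first case -/
theorem N_succ_agree (q : ℕ) (k : Fin n) (m : Perm (Fin (2 * n))) (hm : ∀ x, m (m x) = x)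
    (h : Agree (k : ℕ) m) :
    (colSet q ((k : ℕ) + 1) m).card = (q + 1) * (colSet q (k : ℕ) m).card := by
  have hblk : ∀ x : Fin (2 * n), blk (m x) = k ↔ blk x = k := by
    have key : ∀ x : Fin (2 * n), blk x = k → blk (m x) = k := by
      intro x hx
      have : 2 * (k : ℕ) ≤ (x : ℕ) := by
        have := congrArg Fin.val hx
        rw [blk_val] at this; omega
      rw [h x this, blk_partner, hx]
    intro x
    constructor
    · intro h1; have := key _ h1; rwa [hm] at this
    · exact key x
  have hc : (q + 1) * (colSet q (k : ℕ) m).card =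
      ((univ : Finset (Fin (q + 1))) ×ˢ (colSet q (k : ℕ) m)).card := by
    rw [Finset.card_product]; simp
  rw [hc]
  refine Finset.card_nbij' (fun f => (f k, Function.update f k 0))
    (fun p => Function.update p.2 k p.1) ?_ ?_ ?_ ?_
  · intro f hf
    rw [Finset.mem_coe, colSet_mem] at hf
    rw [Finset.mem_coe, Finset.mem_product]
    refine ⟨Finset.mem_univ _, ?_⟩
    rw [colSet_mem]
    dsimp only
    refine ⟨fun x => ?_, fun j hj => ?_⟩
    · by_cases hx : blk x = k
      · have := (hblk x).mpr hx
        rw [hx, this]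
      · have h2 : blk (m x) ≠ k := fun h => hx ((hblk x).mp h)
        rw [Function.update_of_ne hx, Function.update_of_ne h2]
        exact hf.1 x
    · by_cases hjk : j = k
      · rw [hjk]; simp
      · rw [Function.update_of_ne hjk]
        apply hf.2
        have : (j : ℕ) ≠ k := fun h => hjk (Fin.ext h)
        omega
  · rintro ⟨c, f⟩ hf
    rw [Finset.mem_coe, Finset.mem_product, colSet_mem] at hf
    rw [Finset.mem_coe, colSet_mem]
    obtain ⟨_, hf⟩ := hf
    dsimp only at hf ⊢
    refine ⟨fun x => ?_, fun j hj => ?_⟩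
    · by_cases hx : blk x = k
      · have := (hblk x).mpr hx
        rw [hx, this]
      · have h2 : blk (m x) ≠ k := fun h => hx ((hblk x).mp h)
        rw [Function.update_of_ne hx, Function.update_of_ne h2]
        exact hf.1 x
    · have hjk : j ≠ k := by rintro rfl; omega
      rw [Function.update_of_ne hjk]
      exact hf.2 j (by omega)
  · intro f hf
    simp
  · rintro ⟨c, f⟩ hf
    rw [Finset.mem_coe, Finset.mem_product, colSet_mem] at hf
    have hk := hf.2.2 k le_rfl
    simp only [Function.update_self, Function.update_idem, Prod.mk.injEq, true_and]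
    rw [← hk]; simp

theorem blk_eq_k {k : Fin n} {x : Fin (2 * n)} : blk x = k ↔ x = od k ∨ x = partner n (od k) := by
  conv_lhs => rw [← blk_od k]
  rw [eq_comm, blk_eq_iff]

/-- second case: `m` joins block `k` to the letter `i₀` -/
theorem N_succ_join (q : ℕ) (k : Fin n) (m : Perm (Fin (2 * n))) (hm : ∀ x, m (m x) = x)
    (hne : ∀ x, m x ≠ x)
    (h : Agree ((k : ℕ) + 1) m) (i₀ : Fin (2 * n)) (hi₀ : (i₀ : ℕ) < 2 * k)
    (hmi : m (partner n (od k)) = i₀) :
    Agree (k : ℕ) (swap i₀ (od k) * m * swap i₀ (od k)) ∧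
    (colSet q ((k : ℕ) + 1) m).card =
      (colSet q (k : ℕ) (swap i₀ (od k) * m * swap i₀ (od k))).card := by
  have hbk : ∀ x : Fin (2 * n), blk x = k ↔ x = od k ∨ x = partner n (od k) := fun x => blk_eq_k
  have hav : (od k : ℕ) = 2 * k := rfl
  have hav' : (partner n (od k) : ℕ) = 2 * k + 1 := partner_od_val k
  have hba : blk (od k) = k := blk_od k
  have hba' : blk (partner n (od k)) = k := by rw [blk_partner, blk_od]
  generalize ha : od k = a at *
  generalize ha' : partner n a = a' at *
  have hia : i₀ ≠ a := by intro h; rw [h, hav] at hi₀; omega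
  have hia' : i₀ ≠ a' := by intro h; rw [h, hav'] at hi₀; omega
  have haa' : a ≠ a' := by intro h; rw [h] at hav; omega
  have hmi' : m i₀ = a' := by rw [← hmi, hm]
  obtain ⟨i₁, hi₁⟩ : ∃ i₁, i₁ = m a := ⟨_, rfl⟩
  have hmi₁ : m i₁ = a := by rw [hi₁, hm]
  have h10 : i₁ ≠ i₀ := by
    intro h; rw [h, hmi'] at hmi₁; exact haa' hmi₁.symm
  have h1a' : i₁ ≠ a' := by
    intro h; rw [h, hmi] at hmi₁; exact hia hmi₁
  have h1a : i₁ ≠ a := by rw [hi₁]; exact hne a
  have hbi₀ : blk i₀ ≠ k := fun h => by rcases (hbk _).mp h with h | h; exacts [hia h, hia' h]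
  have hbi₁ : blk i₁ ≠ k := fun h => by rcases (hbk _).mp h with h | h; exacts [h1a h, h1a' h]
  have hother : ∀ x, x ≠ a → x ≠ a' → x ≠ i₀ → x ≠ i₁ →
      (swap i₀ a * m * swap i₀ a) x = m x ∧ blk x ≠ k ∧ blk (m x) ≠ k := by
    intro x h1 h2 h3 h4
    refine ⟨?_, ?_, ?_⟩
    · simp only [Perm.mul_apply]
      rw [swap_apply_of_ne_of_ne h3 h1, swap_apply_of_ne_of_ne]
      · intro h; apply h2; rw [← hmi', ← h, hm]
      · intro h; apply h4; rw [hi₁, ← h, hm]
    · intro h; rcases (hbk _).mp h with h | h
      exacts [h1 h, h2 h]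
    · intro h; rcases (hbk _).mp h with h | h
      · apply h4; rw [hi₁, ← h, hm]
      · apply h3; rw [← hmi, ← h, hm]
  have e1 : (swap i₀ a * m * swap i₀ a) a = a' := by
    simp only [Perm.mul_apply]
    rw [swap_apply_right, hmi', swap_apply_of_ne_of_ne hia'.symm haa'.symm]
  have e2 : (swap i₀ a * m * swap i₀ a) a' = a := by
    simp only [Perm.mul_apply]
    rw [swap_apply_of_ne_of_ne hia'.symm haa'.symm, hmi, swap_apply_left]
  have e3 : (swap i₀ a * m * swap i₀ a) i₀ = i₁ := by
    simp only [Perm.mul_apply]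
    rw [swap_apply_left, ← hi₁, swap_apply_of_ne_of_ne h10 h1a]
  have e4 : (swap i₀ a * m * swap i₀ a) i₁ = i₀ := by
    simp only [Perm.mul_apply]
    rw [swap_apply_of_ne_of_ne h10 h1a, hmi₁, swap_apply_right]
  refine ⟨?_, ?_⟩
  · intro x hx
    by_cases h1 : x = a
    · rw [h1, e1, ha']
    by_cases h2 : x = a'
    · rw [h2, e2, ← ha', partner_partner]
    have hx1 : (x : ℕ) ≠ 2 * k := fun h => h1 (Fin.ext (by rw [h, hav]))
    have hx2 : (x : ℕ) ≠ 2 * k + 1 := fun h => h2 (Fin.ext (by rw [h, hav']))
    have hx3 : 2 * ((k : ℕ) + 1) ≤ (x : ℕ) := by omega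
    have h3 : x ≠ i₀ := by intro h; rw [h] at hx; omega
    have h4 : x ≠ i₁ := by
      intro h5
      have h6 := h x hx3
      rw [h5, hmi₁] at h6
      have h7 : partner n a = i₁ := by rw [h6, partner_partner]
      rw [ha'] at h7
      exact h1a' h7.symm
    rw [(hother x h1 h2 h3 h4).1, h x hx3]
  · refine Finset.card_nbij' (fun f => Function.update f k 0)
      (fun g => Function.update g k (g (blk i₀))) ?_ ?_ ?_ ?_
    · intro f hf
      rw [Finset.mem_coe, colSet_mem] at hf
      rw [Finset.mem_coe, colSet_mem]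
      have f1 : f (blk i₀) = f k := by have := hf.1 a'; rwa [hmi, hba'] at this
      have f2 : f (blk i₁) = f k := by have := hf.1 a; rwa [← hi₁, hba] at this
      dsimp only
      refine ⟨fun x => ?_, fun j hj => ?_⟩
      · by_cases h1 : x = a
        · rw [h1, e1, hba, hba']
        by_cases h2 : x = a'
        · rw [h2, e2, hba, hba']
        by_cases h3 : x = i₀
        · rw [h3, e3, Function.update_of_ne hbi₀, Function.update_of_ne hbi₁, f1, f2]
        by_cases h4 : x = i₁
        · rw [h4, e4, Function.update_of_ne hbi₀, Function.update_of_ne hbi₁, f1, f2]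
        obtain ⟨g1, g2, g3⟩ := hother x h1 h2 h3 h4
        rw [g1, Function.update_of_ne g2, Function.update_of_ne g3]
        exact hf.1 x
      · by_cases hjk : j = k
        · rw [hjk]; simp
        · rw [Function.update_of_ne hjk]
          apply hf.2
          have : (j : ℕ) ≠ k := fun h => hjk (Fin.ext h)
          omega
    · intro g hg
      rw [Finset.mem_coe, colSet_mem] at hg
      rw [Finset.mem_coe, colSet_mem]
      have f1 : g (blk i₁) = g (blk i₀) := by have := hg.1 i₀; rwa [e3] at this
      dsimp only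
      refine ⟨fun x => ?_, fun j hj => ?_⟩
      · by_cases h1 : x = a
        · rw [h1, ← hi₁, hba, Function.update_of_ne hbi₁, Function.update_self, f1]
        by_cases h2 : x = a'
        · rw [h2, hmi, hba', Function.update_of_ne hbi₀, Function.update_self]
        by_cases h3 : x = i₀
        · rw [h3, hmi', hba', Function.update_of_ne hbi₀, Function.update_self]
        by_cases h4 : x = i₁
        · rw [h4, hmi₁, hba, Function.update_of_ne hbi₁, Function.update_self, f1]
        obtain ⟨g1, g2, g3⟩ := hother x h1 h2 h3 h4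
        rw [Function.update_of_ne g2, Function.update_of_ne g3]
        have := hg.1 x
        rwa [g1] at this
      · have hjk : j ≠ k := by rintro rfl; omega
        rw [Function.update_of_ne hjk]
        exact hg.2 j (by omega)
    · intro f hf
      rw [Finset.mem_coe, colSet_mem] at hf
      have f1 : f (blk i₀) = f k := by have := hf.1 a'; rwa [hmi, hba'] at this
      simp only [Function.update_of_ne hbi₀, Function.update_idem]
      rw [f1]; simp
    · intro g hg
      rw [Finset.mem_coe, colSet_mem] at hg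
      have := hg.2 k le_rfl
      simp only [Function.update_idem]
      rw [← this]; simp

theorem N_succ (q : ℕ) (k : Fin n) (m : Perm (Fin (2 * n))) (hm : ∀ x, m (m x) = x)
    (hne : ∀ x, m x ≠ x) :
    N q ((k : ℕ) + 1) m = (q + 1) * N q (k : ℕ) m +
      ∑ i ∈ univ.filter (fun i : Fin (2 * n) => (i : ℕ) < 2 * k),
        N q (k : ℕ) (swap i (od k) * m * swap i (od k)) := by
  have hav : (od k : ℕ) = 2 * k := rfl
  have hav' : (partner n (od k) : ℕ) = 2 * k + 1 := partner_od_val k
  -- value of the conjugated matching at `partner (od k)`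
  have hval : ∀ i : Fin (2 * n), (i : ℕ) < 2 * k →
      (swap i (od k) * m * swap i (od k)) (partner n (od k)) =
        swap i (od k) (m (partner n (od k))) := by
    intro i hi
    simp only [Perm.mul_apply]
    rw [swap_apply_of_ne_of_ne (x := partner n (od k))]
    · intro h; rw [← h, hav'] at hi; omega
    · exact partner_ne _
  have hiff : ∀ i : Fin (2 * n), (i : ℕ) < 2 * k →
      Agree (k : ℕ) (swap i (od k) * m * swap i (od k)) → m (partner n (od k)) = i := by
    intro i hi hag
    have h1 := hag (partner n (od k)) (by rw [hav']; omega)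
    rw [hval i hi, partner_partner] at h1
    have h2 := congrArg (swap i (od k)) h1
    rw [swap_apply_right, ← Perm.mul_apply, swap_mul_self] at h2
    exact h2
  unfold N
  by_cases h0 : Agree (k : ℕ) m
  · have h1 : Agree ((k : ℕ) + 1) m := fun x hx => h0 x (by omega)
    rw [if_pos h0, if_pos h1, N_succ_agree q k m hm h0, Finset.sum_eq_zero, add_zero]
    intro i hi
    rw [if_neg]
    intro hag
    have h2 := hiff i (Finset.mem_filter.mp hi).2 hag
    have h3 := h0 (partner n (od k)) (by rw [hav']; omega)
    rw [h2, partner_partner] at h3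
    have := (Finset.mem_filter.mp hi).2
    rw [h3, hav] at this; omega
  by_cases h1 : Agree ((k : ℕ) + 1) m
  · -- the joined letter
    obtain ⟨i₀, hi₀⟩ : ∃ i₀, i₀ = m (partner n (od k)) := ⟨_, rfl⟩
    have hlt : (i₀ : ℕ) < 2 * k := by
      by_contra hcon
      have hge : 2 * (k : ℕ) ≤ (i₀ : ℕ) := by omega
      have hn2 : i₀ ≠ partner n (od k) := by rw [hi₀]; exact hne _
      have hmm : m i₀ = partner n (od k) := by rw [hi₀, hm]
      by_cases h3 : i₀ = od k
      · apply h0
        intro x hx
        by_cases h4 : x = od k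
        · rw [h4, ← h3, hmm, h3]
        by_cases h5 : x = partner n (od k)
        · rw [h5, ← hi₀, h3, partner_partner]
        have hx1 : (x : ℕ) ≠ 2 * k := fun h => h4 (Fin.ext (by rw [h, hav]))
        have hx2 : (x : ℕ) ≠ 2 * k + 1 := fun h => h5 (Fin.ext (by rw [h, hav']))
        exact h1 x (by omega)
      · have hx1 : (i₀ : ℕ) ≠ 2 * k := fun h => h3 (Fin.ext (by rw [h, hav]))
        have hx2 : (i₀ : ℕ) ≠ 2 * k + 1 := fun h => hn2 (Fin.ext (by rw [h, hav']))
        have h6 := h1 i₀ (by omega)
        rw [hmm] at h6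
        have h7 : od k = i₀ := by
          have := congrArg (partner n) h6
          rwa [partner_partner, partner_partner] at this
        exact h3 h7.symm
    obtain ⟨h2, h3⟩ := N_succ_join q k m hm hne h1 i₀ hlt hi₀.symm
    rw [if_pos h1, if_neg h0, mul_zero, zero_add, Finset.sum_eq_single i₀, if_pos h2, h3]
    · intro i hi hii
      rw [if_neg]
      intro hag
      exact hii ((hiff i (Finset.mem_filter.mp hi).2 hag).symm.trans hi₀.symm)
    · intro h; exact absurd (Finset.mem_filter.mpr ⟨Finset.mem_univ i₀, hlt⟩) h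
  · rw [if_neg h0, if_neg h1, mul_zero, zero_add, Finset.sum_eq_zero]
    intro i hi
    rw [if_neg]
    intro hag
    apply h1
    intro x hx
    have hi' := (Finset.mem_filter.mp hi).2
    have hxi : x ≠ i := by intro h; rw [h] at hx; omega
    have hxa : x ≠ od k := by intro h; rw [h, hav] at hx; omega
    have h2 := hag x (by omega)
    simp only [Perm.mul_apply] at h2
    rw [swap_apply_of_ne_of_ne hxi hxa] at h2
    have h3 := congrArg (swap i (od k)) h2
    rw [← Perm.mul_apply, swap_mul_self, Perm.one_apply] at h3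
    rw [h3, swap_apply_of_ne_of_ne]
    · intro h; have := congrArg Fin.val h; rw [partner_val] at this; split_ifs at this <;> omega
    · intro h; have := congrArg Fin.val h; rw [partner_val, hav] at this; split_ifs at this <;> omega

end Pool.Agent.Helper51.OJM
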