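import Mathlib

namespace Pool.Agent.Helper51.OJM

open Equiv

/-- The complex group algebra of the symmetric group on the `2n` letters `0, …, 2n-1`
(the letters `1, …, 2n` of the problem, shifted down by one). -/
abbrev GA (n : ℕ) := MonoidAlgebra ℂ (Perm (Fin (2 * n)))

/-- The algebra of symmetric functions over `ℂ` in infinitely many variables `x_0, x_1, …`:
the formal power series of bounded degree which are invariant under permutations of the
variables. -/
def SymFun : Set (MvPowerSeries ℕ ℂ) :=
  {F | (∃ d : ℕ, ∀ m : ℕ →₀ ℕ, d < m.degree → MvPowerSeries.coeff m F = 0) ∧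
    ∀ (e : Perm ℕ) (m : ℕ →₀ ℕ), MvPowerSeries.coeff (m.mapDomain e) F = MvPowerSeries.coeff m F}

/-- The odd Jucys–Murphy elements: `oddJM n j` is `J_{2j+1}`, for `j = 0, …, n-1`. With the
letters shifted down by one it is the sum of the transpositions `(i, 2j)` with `i < 2j`. -/
noncomputable def oddJM (n : ℕ) (j : Fin n) : GA n :=
  ∑ i ∈ Finset.univ.filter (fun i : Fin (2 * n) => (i : ℕ) < 2 * j),
    MonoidAlgebra.single (swap i ⟨2 * j, by omega⟩) 1

/-- `F(J_1, J_3, …, J_{2n-1})`: set `x_j = J_{2j+1}` for `j = 0, …, n-1` and all other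
variables to `0`. Only the monomials `m` in `x_0, …, x_{n-1}` survive (finitely many of them
have a nonzero coefficient when `F` has bounded degree). -/
noncomputable def evalOdd (n : ℕ) (F : MvPowerSeries ℕ ℂ) : GA n :=
  ∑ᶠ m : Fin n →₀ ℕ, MvPowerSeries.coeff (m.mapDomain (fun j : Fin n => (j : ℕ))) F •
    (List.ofFn fun j : Fin n => oddJM n j ^ m j).prod

/-- The involution `2i ↔ 2i+1` of `{0, …, 2n-1}`. -/
def partner (n : ℕ) (x : Fin (2 * n)) : Fin (2 * n) :=
  if h : (x : ℕ) % 2 = 0 then ⟨(x : ℕ) + 1, by omega⟩ else ⟨(x : ℕ) - 1, by omega⟩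

/-- Membership in the hyperoctahedral group `H_n`, the centraliser of `partner`. -/
def InH (n : ℕ) (σ : Perm (Fin (2 * n))) : Prop := ∀ x, σ (partner n x) = partner n (σ x)

open Classical in
/-- `P_n`, the sum of all elements of the hyperoctahedral group. -/
noncomputable def P (n : ℕ) : GA n :=
  ∑ σ ∈ Finset.univ.filter (InH n), MonoidAlgebra.single σ 1

/-- The Hecke algebra of the Gelfand pair `(S_{2n}, H_n)`: the elements of the group algebra
whose coefficient function is constant on every double coset `H_n σ H_n`. -/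
def Hecke (n : ℕ) : Set (GA n) :=
  {a | ∀ σ ζ ζ', InH n ζ → InH n ζ' → a.coeff (ζ * σ * ζ') = a.coeff σ}

end Pool.Agent.Helper51.OJM
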