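import Pool.Agent.Helper51.OJM.Iota

namespace Pool.Agent.Helper51.OJM

open Equiv Finset

variable {n : ℕ}

theorem aii {α : Type*} (f : Perm α) (x : α) : f (f⁻¹ x) = x := by simp

section
variable (σ : Perm (Fin (2 * n)))

/-- product of the two matchings -/
def cc : Perm (Fin (2 * n)) := mat σ * tau n

theorem tau_cc (x : Fin (2 * n)) : partner n (cc σ x) = (cc σ)⁻¹ (partner n x) := by
  rw [eq_comm, Perm.inv_eq_iff_eq, eq_comm]
  unfold cc
  simp only [Perm.mul_apply, tau_apply]
  rw [partner_partner, mat_mat]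

theorem tau_conj_cc : tau n * cc σ * (tau n)⁻¹ = (cc σ)⁻¹ := by
  rw [tau_inv]
  ext1 x
  simp only [Perm.mul_apply, tau_apply]
  rw [tau_cc, partner_partner]

theorem tau_conj_zpow (k : ℤ) : tau n * cc σ ^ k * (tau n)⁻¹ = cc σ ^ (-k) := by
  rw [← conj_zpow, tau_conj_cc, inv_zpow, zpow_neg]

theorem tau_zpow (k : ℤ) (x : Fin (2 * n)) :
    partner n ((cc σ ^ k) x) = (cc σ ^ (-k)) (partner n x) := by
  have h := congrArg (fun w : Perm (Fin (2 * n)) => w (partner n x)) (tau_conj_zpow σ k)
  simp only [Perm.mul_apply, tau_inv, tau_apply, partner_partner] at h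
  exact h

theorem sameCycle_partner {x y : Fin (2 * n)} (h : (cc σ).SameCycle x y) :
    (cc σ).SameCycle (partner n x) (partner n y) := by
  obtain ⟨k, rfl⟩ := h
  exact ⟨-k, (tau_zpow σ k x).symm⟩

theorem not_sameCycle_partner (x : Fin (2 * n)) : ¬ (cc σ).SameCycle x (partner n x) := by
  rintro ⟨k, hk⟩
  rcases Int.even_or_odd' k with ⟨j, rfl | rfl⟩
  · -- τ (c^j x) = c^{-j} τ x = c^j x
    apply partner_ne ((cc σ ^ j) x)
    rw [tau_zpow, ← hk, ← Perm.mul_apply, ← zpow_add]
    congr 2; ring
  · -- τ (c^j x) = c^{j+1} x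
    have h1 : partner n ((cc σ ^ j) x) = cc σ ((cc σ ^ j) x) := by
      rw [tau_zpow, ← hk, ← Perm.mul_apply, ← Perm.mul_apply, ← zpow_add, ← zpow_one_add]
      congr 2; ring
    have h2 : cc σ ((cc σ ^ j) x) = mat σ (partner n ((cc σ ^ j) x)) := rfl
    exact mat_ne σ _ (h1.trans h2).symm

/-- representative of a cycle -/
noncomputable def rep (x : Fin (2 * n)) : Fin (2 * n) :=
  Quotient.out (Quotient.mk (Perm.SameCycle.setoid (cc σ)) x)

theorem rep_eq_iff {x y : Fin (2 * n)} : rep σ x = rep σ y ↔ (cc σ).SameCycle x y := by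
  unfold rep
  rw [Quotient.out_inj, Quotient.eq]
  rfl

/-- the half of the letters -/
def isA (x : Fin (2 * n)) : Prop := rep σ x < rep σ (partner n x)

theorem isA_partner (x : Fin (2 * n)) : isA σ (partner n x) ↔ ¬ isA σ x := by
  unfold isA
  rw [partner_partner, not_lt]
  have : rep σ x ≠ rep σ (partner n x) := fun h => not_sameCycle_partner σ x ((rep_eq_iff σ).mp h)
  constructor
  · intro h; exact h.le
  · intro h; exact lt_of_le_of_ne h this.symm

theorem isA_cc (x : Fin (2 * n)) : isA σ (cc σ x) ↔ isA σ x := by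
  unfold isA
  have h1 : rep σ (cc σ x) = rep σ x := by
    rw [rep_eq_iff]; exact (Perm.sameCycle_apply_left).mpr (Perm.SameCycle.refl _ _)
  have h2 : rep σ (partner n (cc σ x)) = rep σ (partner n x) := by
    rw [rep_eq_iff, tau_cc]; exact (Perm.sameCycle_symm_apply_left).mpr (Perm.SameCycle.refl _ _)
  rw [h1, h2]

theorem isA_mat (x : Fin (2 * n)) : isA σ (mat σ x) ↔ ¬ isA σ x := by
  have h : mat σ x = cc σ (partner n x) := by
    unfold cc; simp only [Perm.mul_apply, tau_apply]; rw [partner_partner]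
  rw [h, isA_cc, isA_partner]

open Classical in
/-- the flip -/
noncomputable def flipFun (x : Fin (2 * n)) : Fin (2 * n) := eqv n (blk x, decide (¬ isA σ x))

theorem flipFun_injective : Function.Injective (flipFun σ) := by
  intro x y h
  unfold flipFun at h
  have h1 := (eqv n).injective h
  rw [Prod.mk.injEq] at h1
  obtain ⟨h2, h3⟩ := h1
  have h4 : (¬ isA σ x) ↔ (¬ isA σ y) := not_congr (by simpa using h3)
  rcases blk_eq_iff.mp h2 with h5 | h5
  · exact h5.symm
  · exfalso
    rw [h5, isA_partner, not_not] at h4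
    tauto

/-- the flip as a permutation -/
noncomputable def flipPerm : Perm (Fin (2 * n)) :=
  Equiv.ofBijective (flipFun σ) (Finite.injective_iff_bijective.mp (flipFun_injective σ))

theorem flipPerm_apply (x : Fin (2 * n)) : flipPerm σ x = flipFun σ x := rfl

theorem flip_inH : InH n (flipPerm σ) := by
  classical
  intro x
  rw [flipPerm_apply, flipPerm_apply]
  unfold flipFun
  rw [partner_eqv, blk_partner]
  congr 2
  rw [← decide_not]
  apply decide_eq_decide.mpr
  rw [isA_partner]

theorem exists_iota : ∃ π : Perm (Fin n), DC (iota π) σ := by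
  classical
  set h := flipPerm σ with hh
  have hAtrue : ∀ x, isA σ x → h x = od (blk x) := by
    intro x hx
    rw [hh, flipPerm_apply]; unfold flipFun
    rw [← eqv_false]; congr 2; simp [hx]
  have hAfalse : ∀ x, ¬ isA σ x → h x = partner n (od (blk x)) := by
    intro x hx
    rw [hh, flipPerm_apply]; unfold flipFun
    rw [← eqv_true]; congr 2; simp [hx]
  have hinv : ∀ j : Fin n, ¬ isA σ (h⁻¹ (partner n (od j))) := by
    intro j hj
    have h1 := hAtrue _ hj
    rw [aii] at h1
    exact partner_od_ne _ _ h1.symm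
  have hm : ∀ j : Fin n, mat (h * σ) (partner n (od j)) =
      od (blk (mat σ (h⁻¹ (partner n (od j))))) := by
    intro j
    rw [mat_mul_left]
    simp only [Perm.mul_apply]
    apply hAtrue
    rw [isA_mat]; exact hinv j
  let π₀ : Fin n → Fin n := fun j => blk (mat σ (h⁻¹ (partner n (od j))))
  have hπ₀ : Function.Injective π₀ := by
    intro i j hij
    have h1 := congrArg od hij
    change od (blk (mat σ (h⁻¹ (partner n (od i))))) = od (blk (mat σ (h⁻¹ (partner n (od j))))) at h1
    rw [← hm, ← hm] at h1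
    have h2 := (mat (h * σ)).injective h1
    have h3 := congrArg blk h2
    rwa [blk_partner, blk_partner, blk_od, blk_od] at h3
  let π : Perm (Fin n) := Equiv.ofBijective π₀ (Finite.injective_iff_bijective.mp hπ₀)
  have hπ : ∀ j, mat (h * σ) (partner n (od j)) = od (π j) := hm
  refine ⟨π, ?_⟩
  have h1 : mat (iota π) = mat (h * σ) := by
    apply perm_ext
    · intro j
      rw [mat_iota_od]
      have h2 := hπ (π⁻¹ j)
      rw [aii] at h2
      rw [← h2, mat_mat]
    · intro j
      rw [mat_iota_partner, hπ]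
  refine (DC_of_mat h1).trans ⟨h⁻¹, 1, inH_inv (flip_inH σ), inH_one, by group⟩

end

end Pool.Agent.Helper51.OJM
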