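import Pool.Agent.Helper51.OJM.Supp
import Pool.Agent.Helper51.OJM.Rep

namespace Pool.Agent.Helper51.OJM

open Equiv Finset
open scoped Pointwise

variable {n : ℕ}

theorem iota_cycle (r : ℕ) : ∀ g : Perm (Fin n), g.IsCycle → g.support.card = r + 1 →
    ∀ k ∈ g.support, (∀ x ∈ g.support, x ≤ k) → iota g ∈ St k ^ r := by
  induction r with
  | zero =>
    intro g hg hc
    have := hg.two_le_card_support
    omega
  | succ r ih =>
    intro g hg hc k hk hmax
    obtain ⟨x, hx⟩ : ∃ x, g x = k := ⟨g⁻¹ k, aii g k⟩
    have hgk : g k ≠ k := Perm.mem_support.mp hk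
    have hxk : x ≠ k := by rintro rfl; exact hgk hx
    have hgx : g x ≠ x := by rw [hx]; exact hxk.symm
    have hxs : x ∈ g.support := Perm.mem_support.mpr hgx
    have hlt : x < k := lt_of_le_of_ne (hmax x hxs) hxk
    have hst : swap (od x) (od k) ∈ St k := by
      refine ⟨od x, ?_, rfl⟩
      rw [od_val]
      have : (x : ℕ) < k := hlt
      omega
    by_cases hgg : g (g x) = x
    · have h1 := hg.eq_swap_of_apply_apply_eq_self hgx hgg
      have h2 : g.support.card = 2 := by
        rw [h1]; exact Perm.card_support_swap (fun h => hgx h.symm)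
      have hr : r = 0 := by omega
      subst hr
      rw [zero_add, pow_one, h1, hx, iota_swap]
      exact hst
    · have h1 := hg.swap_mul hgx hgg
      have h2 := Perm.support_swap_mul_eq g x hgg
      have h3 : (swap x (g x) * g).support.card = r + 1 := by
        rw [h2, Finset.card_sdiff_of_subset (by simpa using hgx), Finset.card_singleton, hc]; omega
      have h4 := ih _ h1 h3 k (by rw [h2]; simp [hgk, hxk.symm]) (fun y hy => by
        rw [h2] at hy; exact hmax y (Finset.mem_sdiff.mp hy).1)
      have h5 : iota g = swap (od x) (od k) * iota (swap x (g x) * g) := by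
        rw [map_mul, iota_swap, hx, ← mul_assoc, swap_mul_self, one_mul]
      rw [h5, pow_succ']
      exact Set.mul_mem_mul hst h4

theorem iota_list (l : List (Perm (Fin n))) (hl : ∀ g ∈ l, Perm.IsCycle g) :
    iota l.prod ∈ ((l.map (fun g => g.support.card - 1)).map (Star n)).prod := by
  induction l with
  | nil => simp
  | cons g l ih =>
    rw [List.prod_cons, map_mul, List.map_cons, List.map_cons, List.prod_cons]
    apply Set.mul_mem_mul _ (ih (fun h hh => hl h (by simp [hh])))
    have hg := hl g (by simp)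
    have hne : g.support.Nonempty := by
      rw [← Finset.card_pos]; have := hg.two_le_card_support; omega
    refine ⟨g.support.max' hne, ?_⟩
    apply iota_cycle _ g hg
    · have := hg.two_le_card_support; omega
    · exact Finset.max'_mem _ _
    · exact fun x hx => Finset.le_max' _ x hx

theorem key (π : Perm (Fin n)) : ∃ F : MvPolynomial (Fin n) ℂ, F.IsSymmetric ∧
    (ev n F * P n).coeff (iota π) ≠ 0 ∧
    ∀ π' : Perm (Fin n), (ev n F * P n).coeff (iota π') ≠ 0 →
      π'.support.card < π.support.card ∨
      (π'.support.card = π.support.card ∧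
        (Multiset.card π.cycleType < Multiset.card π'.cycleType ∨ π'.cycleType = π.cycleType)) := by
  obtain ⟨l, h1, h2, h3⟩ := Perm.cycleFactors π
  have hct := Perm.cycleType_eq l h1 h2 h3
  set rs : List ℕ := l.map (fun g => g.support.card - 1) with hrs
  have e1 : rs.map (· + 1) = l.map (Finset.card ∘ Perm.support) := by
    rw [hrs, List.map_map]
    apply List.map_congr_left
    intro g hg
    have := (h2 g hg).two_le_card_support
    simp only [Function.comp_apply]
    omega
  have e2 : (rs.map (· + 1)).sum = π.support.card := by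
    rw [e1, ← Perm.sum_cycleType, hct, Multiset.sum_coe]
  have e3 : rs.length = Multiset.card π.cycleType := by
    rw [hct, Multiset.coe_card, hrs, List.length_map, List.length_map]
  refine ⟨FF n rs, FF_symm rs, ?_, ?_⟩
  · rw [(good_FF rs).coeff_ne]
    have h4 := iota_list l h2
    rw [h1] at h4
    exact Set.mem_mul.mpr ⟨_, h4, 1, inH_one, mul_one _⟩
  · intro π' hπ'
    rw [(good_FF rs).coeff_ne] at hπ'
    have h4 := upper rs π' hπ'
    rwa [e2, e3, e1, ← hct] at h4

/-- the left hand side as a subspace -/
noncomputable def LL (n : ℕ) : Submodule ℂ (GA n) where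
  carrier := {x | ∃ F : MvPolynomial (Fin n) ℂ, F.IsSymmetric ∧ x = ev n F * P n}
  add_mem' := by
    rintro _ _ ⟨F, hF, rfl⟩ ⟨G, hG, rfl⟩
    exact ⟨F + G, hF.add hG, by rw [map_add, add_mul]⟩
  zero_mem' := ⟨0, MvPolynomial.IsSymmetric.zero, by simp⟩
  smul_mem' := by
    rintro c _ ⟨F, hF, rfl⟩
    refine ⟨c • F, hF.smul c, by rw [map_smul, smul_mul_assoc]⟩

open Classical in
/-- indicator of a double coset -/
noncomputable def Ind (σ : Perm (Fin (2 * n))) : GA n :=
  ∑ ρ ∈ univ.filter (fun ρ => DC σ ρ), MonoidAlgebra.single ρ 1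

theorem Ind_coeff (σ ρ : Perm (Fin (2 * n))) [Decidable (DC σ ρ)] :
    (Ind σ).coeff ρ = if DC σ ρ then 1 else 0 := by
  classical
  unfold Ind
  rw [MonoidAlgebra.coeff_sum, Finsupp.finsetSum_apply]
  simp only [MonoidAlgebra.coeff_single, Finsupp.single_apply]
  rw [Finset.sum_ite_eq']
  simp only [Finset.mem_filter, Finset.mem_univ, true_and]

theorem Ind_eq {σ ρ : Perm (Fin (2 * n))} (h : DC σ ρ) : Ind σ = Ind ρ := by
  classical
  ext κ
  rw [Ind_coeff, Ind_coeff]
  have : DC σ κ ↔ DC ρ κ := ⟨fun h1 => h.symm.trans h1, fun h1 => h.trans h1⟩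
  simp only [this]

theorem Hecke_DC {a : GA n} (ha : a ∈ Hecke n) {σ ρ : Perm (Fin (2 * n))} (h : DC σ ρ) :
    a.coeff ρ = a.coeff σ := by
  obtain ⟨ζ, ζ', h1, h2, rfl⟩ := h
  exact ha σ ζ ζ' h1 h2

open Classical in
/-- number of permutations of the blocks in the double coset -/
noncomputable def KK (σ : Perm (Fin (2 * n))) : ℕ :=
  (univ.filter (fun π : Perm (Fin n) => DC (iota π) σ)).card

theorem KK_pos (σ : Perm (Fin (2 * n))) : 0 < KK σ := by
  classical
  obtain ⟨π, hπ⟩ := exists_iota σ
  exact Finset.card_pos.mpr ⟨π, by simp [hπ]⟩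

theorem KK_eq {σ ρ : Perm (Fin (2 * n))} (h : DC σ ρ) : KK σ = KK ρ := by
  classical
  unfold KK
  congr 1
  ext π
  simp only [Finset.mem_filter, Finset.mem_univ, true_and]
  exact ⟨fun h1 => h1.trans h, fun h1 => h1.trans h.symm⟩

theorem expand {a : GA n} (ha : a ∈ Hecke n) :
    a = ∑ π : Perm (Fin n), (a.coeff (iota π) / KK (iota π)) • Ind (iota π) := by
  classical
  ext σ
  rw [MonoidAlgebra.coeff_sum, Finsupp.finsetSum_apply]
  have h1 : ∀ π : Perm (Fin n), ((a.coeff (iota π) / KK (iota π)) • Ind (iota π)).coeff σ =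
      if DC (iota π) σ then a.coeff σ / KK σ else 0 := by
    intro π
    rw [MonoidAlgebra.coeff_smul, Finsupp.smul_apply, Ind_coeff, smul_eq_mul]
    by_cases h : DC (iota π) σ
    · rw [if_pos h, if_pos h, mul_one, Hecke_DC ha h, KK_eq h]
    · rw [if_neg h, if_neg h, mul_zero]
  rw [Finset.sum_congr rfl (fun π _ => h1 π), ← Finset.sum_filter, Finset.sum_const,
    nsmul_eq_mul]
  have h2 : (univ.filter (fun π : Perm (Fin n) => DC (iota π) σ)).card = KK σ := by
    unfold KK; congr
  rw [h2]
  have h3 : (KK σ : ℂ) ≠ 0 := by exact_mod_cast (KK_pos σ).ne'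
  field_simp

/-- the measure -/
def MM (π : Perm (Fin n)) : ℕ := π.support.card * (n + 1) + (n - Multiset.card π.cycleType)

theorem card_cycleType_le (π : Perm (Fin n)) : Multiset.card π.cycleType ≤ n := by
  have h1 : Multiset.card π.cycleType • 1 ≤ π.cycleType.sum :=
    Multiset.card_nsmul_le_sum (fun x hx => by have := Perm.two_le_of_mem_cycleType hx; omega)
  rw [Perm.sum_cycleType] at h1
  have h2 : π.support.card ≤ n := by
    have := Finset.card_le_univ π.support
    rwa [Fintype.card_fin] at this
  simp at h1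
  omega

theorem Ind_mem (M : ℕ) : ∀ π : Perm (Fin n), MM π < M → Ind (iota π) ∈ LL n := by
  classical
  induction M with
  | zero => intro π h; omega
  | succ M ih =>
    intro π hπ
    obtain ⟨F, hF, hne, hup⟩ := key π
    set a := ev n F * P n with ha
    have haH : a ∈ Hecke n := symm_mem hF
    have haL : a ∈ LL n := ⟨F, hF, rfl⟩
    have hexp := expand haH
    rw [← Finset.sum_filter_add_sum_filter_not univ
      (fun π' : Perm (Fin n) => DC (iota π') (iota π))] at hexp
    have h1 : ∑ π' ∈ univ.filter (fun π' : Perm (Fin n) => DC (iota π') (iota π)),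
        (a.coeff (iota π') / KK (iota π')) • Ind (iota π') = a.coeff (iota π) • Ind (iota π) := by
      rw [Finset.sum_congr rfl (g := fun _ => (a.coeff (iota π) / KK (iota π)) • Ind (iota π))]
      · rw [Finset.sum_const]
        have h2 : (univ.filter (fun π' : Perm (Fin n) => DC (iota π') (iota π))).card =
          KK (iota π) := by unfold KK; congr
        rw [h2, ← Nat.cast_smul_eq_nsmul ℂ, smul_smul]
        have h3 : (KK (iota π) : ℂ) ≠ 0 := by exact_mod_cast (KK_pos _).ne'
        congr 1
        field_simp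
      · intro π' hπ'
        have h2 := (Finset.mem_filter.mp hπ').2
        rw [Ind_eq h2, KK_eq h2, Hecke_DC haH h2]
    have h2 : ∑ π' ∈ univ.filter (fun π' : Perm (Fin n) => ¬ DC (iota π') (iota π)),
        (a.coeff (iota π') / KK (iota π')) • Ind (iota π') ∈ LL n := by
      apply Submodule.sum_mem
      intro π' hπ'
      have h3 := (Finset.mem_filter.mp hπ').2
      by_cases hz : a.coeff (iota π') = 0
      · rw [hz, zero_div, zero_smul]; exact Submodule.zero_mem _
      apply Submodule.smul_mem
      apply ih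
      have h4 := hup π' hz
      have c1 := card_cycleType_le π
      have c2 := card_cycleType_le π'
      have hMM : MM π' < MM π := by
        unfold MM
        rcases h4 with h4 | ⟨h4, h5 | h5⟩
        · have : (π'.support.card + 1) * (n + 1) ≤ π.support.card * (n + 1) :=
            Nat.mul_le_mul_right _ h4
          have e : (π'.support.card + 1) * (n + 1) = π'.support.card * (n + 1) + (n + 1) := by ring
          omega
        · rw [h4]; omega
        · exfalso
          apply h3
          exact DC_of_conj (Perm.isConj_iff_cycleType_eq.mpr h5)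
      omega
    rw [h1] at hexp
    have h5 : Ind (iota π) = (a.coeff (iota π))⁻¹ • (a - ∑ π' ∈ univ.filter (fun π' : Perm (Fin n) => ¬ DC (iota π') (iota π)),
        (a.coeff (iota π') / KK (iota π')) • Ind (iota π')) := by
      rw [sub_eq_of_eq_add hexp, smul_smul, inv_mul_cancel₀ hne, one_smul]
    rw [h5]
    exact Submodule.smul_mem _ _ (Submodule.sub_mem _ haL h2)

theorem main_poly (n : ℕ) (x : GA n) :
    (∃ F : MvPolynomial (Fin n) ℂ, F.IsSymmetric ∧ x = ev n F * P n) ↔ x ∈ Hecke n := by
  constructor
  · rintro ⟨F, hF, rfl⟩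
    exact symm_mem hF
  · intro hx
    have h : x ∈ LL n := by
      rw [expand hx]
      apply Submodule.sum_mem
      intro π _
      exact Submodule.smul_mem _ _ (Ind_mem (MM π + 1) π (by omega))
    exact h

end Pool.Agent.Helper51.OJM
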