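import Pool.Agent.Helper51.OJM.Comm
import Pool.Agent.Helper51.OJM.Count

namespace Pool.Agent.Helper51.OJM

open Equiv Finset

variable {n : ℕ}

theorem P_coeff (σ : Perm (Fin (2 * n))) [Decidable (InH n σ)] :
    (P n).coeff σ = if InH n σ then 1 else 0 := by
  classical
  unfold P
  rw [MonoidAlgebra.coeff_sum, Finsupp.finsetSum_apply]
  simp only [MonoidAlgebra.coeff_single, Finsupp.single_apply]
  rw [Finset.sum_ite_eq']
  simp only [Finset.mem_filter, Finset.mem_univ, true_and]

theorem single_mul_coeff (w σ : Perm (Fin (2 * n))) (a : GA n) :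
    (MonoidAlgebra.single w (1 : ℂ) * a).coeff σ = a.coeff (w⁻¹ * σ) := by
  rw [MonoidAlgebra.coeff_single_mul_apply, one_mul]

theorem mul_single_coeff (w σ : Perm (Fin (2 * n))) (a : GA n) :
    (a * MonoidAlgebra.single w (1 : ℂ)).coeff σ = a.coeff (σ * w⁻¹) := by
  rw [MonoidAlgebra.coeff_mul_single_apply, mul_one]

theorem N_zero (q : ℕ) (σ : Perm (Fin (2 * n))) [Decidable (InH n σ)] :
    N q 0 (mat σ) = if InH n σ then 1 else 0 := by
  have h1 : Agree 0 (mat σ) ↔ InH n σ := by
    rw [← mat_eq_tau]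
    constructor
    · intro h; ext x; rw [h x (by omega)]; rfl
    · intro h x _; rw [h]; rfl
  unfold N
  by_cases h : InH n σ
  · rw [if_pos (h1.mpr h), if_pos h, Finset.card_eq_one]
    refine ⟨fun _ => 0, ?_⟩
    ext f
    rw [colSet_mem, Finset.mem_singleton]
    constructor
    · rintro ⟨_, h2⟩; funext j; exact h2 j (by omega)
    · rintro rfl; exact ⟨fun _ => rfl, fun _ _ => rfl⟩
  · rw [if_neg (fun h2 => h (h1.mp h2)), if_neg h]

/-- partial products -/
noncomputable def Qp (q k : ℕ) : MvPolynomial (Fin n) ℂ :=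
  ∏ j ∈ univ.filter (fun j : Fin n => (j : ℕ) < k), (MvPolynomial.C ((q : ℂ) + 1) + MvPolynomial.X j)

theorem Qp_succ (q : ℕ) (k : Fin n) :
    (Qp q ((k : ℕ) + 1) : MvPolynomial (Fin n) ℂ) =
      (MvPolynomial.C ((q : ℂ) + 1) + MvPolynomial.X k) * Qp q (k : ℕ) := by
  unfold Qp
  have : univ.filter (fun j : Fin n => (j : ℕ) < (k : ℕ) + 1) =
      insert k (univ.filter (fun j : Fin n => (j : ℕ) < k)) := by
    ext j
    simp only [Finset.mem_filter, Finset.mem_univ, true_and, Finset.mem_insert]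
    constructor
    · intro h
      by_cases hj : j = k
      · left; exact hj
      · right
        have : (j : ℕ) ≠ k := fun h => hj (Fin.ext h)
        omega
    · rintro (rfl | h) <;> omega
  rw [this, Finset.prod_insert (by simp)]

theorem ev_Qp_coeff (q k : ℕ) (hk : k ≤ n) (σ : Perm (Fin (2 * n))) :
    (ev n (Qp q k) * P n).coeff σ = N q k (mat σ) := by
  classical
  induction k generalizing σ with
  | zero =>
    have : (Qp q 0 : MvPolynomial (Fin n) ℂ) = 1 := by
      unfold Qp; rw [Finset.filter_false_of_mem (by simp)]; simp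
    rw [this, map_one, one_mul, P_coeff, N_zero]
    split_ifs <;> simp
  | succ k ih =>
    have hQ := Qp_succ q (⟨k, by omega⟩ : Fin n)
    have hN := N_succ q (⟨k, by omega⟩ : Fin n) (mat σ) (mat_mat σ) (mat_ne σ)
    dsimp only at hQ hN
    rw [hQ, hN, map_mul, map_add, ev_X, mul_assoc, add_mul, MonoidAlgebra.coeff_add,
      Finsupp.add_apply, ← MvPolynomial.algebraMap_eq, AlgHom.commutes, ← Algebra.smul_def,
      MonoidAlgebra.coeff_smul, Finsupp.smul_apply, ih (by omega), oddJM_def, Finset.sum_mul,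
      MonoidAlgebra.coeff_sum, Finsupp.finsetSum_apply]
    push_cast
    rw [smul_eq_mul]
    congr 1
    apply Finset.sum_congr rfl
    intro i _
    rw [single_mul_coeff, ih (by omega), mat_mul_left, swap_inv, swap_inv]

theorem N_top (q : ℕ) (m : Perm (Fin (2 * n))) : N q n m = (colSet q n m).card := by
  unfold N
  rw [if_pos]
  intro x hx; exact absurd x.2 (by omega)

theorem blk_perm {ζ : Perm (Fin (2 * n))} (h : InH n ζ) {x y : Fin (2 * n)} (hxy : blk x = blk y) :
    blk (ζ x) = blk (ζ y) := by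
  rcases blk_eq_iff.mp hxy with rfl | rfl
  · rfl
  · rw [h x, blk_partner]

theorem colSet_card_le (q : ℕ) {ζ : Perm (Fin (2 * n))} (h : InH n ζ) (m : Perm (Fin (2 * n))) :
    (colSet q n m).card ≤ (colSet q n (ζ * m * ζ⁻¹)).card := by
  have h' := inH_inv h
  have key : ∀ (f : Fin n → Fin (q + 1)) (x : Fin (2 * n)),
      f (blk (ζ⁻¹ (od (blk x)))) = f (blk (ζ⁻¹ x)) := by
    intro f x; rw [blk_perm h' (blk_od (blk x))]
  apply Finset.card_le_card_of_injOn (fun f j => f (blk (ζ⁻¹ (od j))))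
  · intro f hf
    rw [Finset.mem_coe, colSet_mem] at hf
    rw [Finset.mem_coe, colSet_mem]
    dsimp only
    refine ⟨fun x => ?_, fun j hj => absurd j.2 (by omega)⟩
    rw [key f, key f]
    have := hf.1 (ζ⁻¹ x)
    simpa using this
  · intro f _ g _ hfg
    funext j
    have h1 := congrFun hfg (blk (ζ (od j)))
    dsimp only at h1
    rw [key f, key g] at h1
    simpa [blk_od] using h1

theorem colSet_card_conj (q : ℕ) {ζ : Perm (Fin (2 * n))} (h : InH n ζ) (m : Perm (Fin (2 * n))) :
    (colSet q n (ζ * m * ζ⁻¹)).card = (colSet q n m).card := by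
  apply le_antisymm
  · have := colSet_card_le q (inH_inv h) (ζ * m * ζ⁻¹)
    have e : ζ⁻¹ * (ζ * m * ζ⁻¹) * ζ⁻¹⁻¹ = m := by group
    rwa [e] at this
  · exact colSet_card_le q h m

theorem ev_Qp_Hecke (q : ℕ) : ev n (Qp q n) * P n ∈ Hecke n := by
  intro σ ζ ζ' h h'
  rw [ev_Qp_coeff q n le_rfl, ev_Qp_coeff q n le_rfl, N_top, N_top, mat_mul_right h', mat_mul_left,
    colSet_card_conj q h]

theorem Qp_top (q : ℕ) : (Qp q n : MvPolynomial (Fin n) ℂ) =
    ∑ j ∈ Finset.range (n + 1), ((q : ℂ) + 1) ^ (n - j) • MvPolynomial.esymm (Fin n) ℂ j := by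
  have h := congrArg (Polynomial.eval (MvPolynomial.C ((q : ℂ) + 1) : MvPolynomial (Fin n) ℂ))
    (MvPolynomial.prod_C_add_X_eq_sum_esymm ℂ (Fin n))
  unfold Qp
  rw [Finset.filter_true_of_mem (fun j _ => j.2)]
  rw [Polynomial.eval_prod] at h
  simp only [Polynomial.eval_add, Polynomial.eval_X, Polynomial.eval_C] at h
  rw [h, Polynomial.eval_finsetSum, Fintype.card_fin]
  apply Finset.sum_congr rfl
  intro j _
  rw [Polynomial.eval_mul, Polynomial.eval_C, Polynomial.eval_pow, Polynomial.eval_X, mul_comm,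
    MvPolynomial.smul_eq_C_mul, map_pow]

/-- vanishing at all positive integers -/
theorem poly_vanish (D : ℕ → ℂ) (h : ∀ q : ℕ, ∑ j ∈ Finset.range (n + 1), ((q : ℂ) + 1) ^ (n - j) * D j = 0)
    (j : ℕ) (hj : j ≤ n) : D j = 0 := by
  let p : Polynomial ℂ := ∑ j ∈ Finset.range (n + 1), Polynomial.monomial (n - j) (D j)
  have hp : p = 0 := by
    apply Polynomial.eq_zero_of_infinite_isRoot
    apply Set.infinite_of_injective_forall_mem (f := fun q : ℕ => (q : ℂ) + 1)
    · intro a b hab
      simpa using hab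
    · intro q
      show Polynomial.IsRoot p _
      rw [Polynomial.IsRoot.def]
      simp only [p, Polynomial.eval_finsetSum, Polynomial.eval_monomial]
      rw [← h q]
      apply Finset.sum_congr rfl
      intro j _; ring
  have hc := congrArg (fun p => Polynomial.coeff p (n - j)) hp
  simp only [p, Polynomial.finsetSum_coeff, Polynomial.coeff_monomial, Polynomial.coeff_zero] at hc
  rw [Finset.sum_eq_single j] at hc
  · simpa using hc
  · intro i hi hij
    rw [if_neg]
    intro he
    have := Finset.mem_range.mp hi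
    omega
  · intro h; exact absurd (Finset.mem_range.mpr (by omega)) h

theorem ev_esymm_Hecke (j : ℕ) (hj : j ≤ n) :
    ev n (MvPolynomial.esymm (Fin n) ℂ j) * P n ∈ Hecke n := by
  intro σ ζ ζ' h h'
  rw [← sub_eq_zero]
  refine poly_vanish (n := n) (fun j => (ev n (MvPolynomial.esymm (Fin n) ℂ j) * P n).coeff (ζ * σ * ζ')
    - (ev n (MvPolynomial.esymm (Fin n) ℂ j) * P n).coeff σ) ?_ j hj
  intro q
  have h1 := ev_Qp_Hecke (n := n) q σ ζ ζ' h h'
  rw [Qp_top, map_sum, Finset.sum_mul, MonoidAlgebra.coeff_sum, Finsupp.finsetSum_apply,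
    Finsupp.finsetSum_apply, ← sub_eq_zero, ← Finset.sum_sub_distrib] at h1
  rw [← h1]
  apply Finset.sum_congr rfl
  intro j _
  rw [map_smul, smul_mul_assoc, MonoidAlgebra.coeff_smul, Finsupp.smul_apply, Finsupp.smul_apply,
    smul_eq_mul, smul_eq_mul, mul_sub]

end Pool.Agent.Helper51.OJM
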