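import Pool.Agent.Helper51.OJM.Basic

namespace Pool.Agent.Helper51.OJM

open Equiv Finset

variable {n : ℕ}

/-- letters as pairs (block, parity) -/
def eqv (n : ℕ) : Fin n × Bool ≃ Fin (2 * n) where
  toFun p := ⟨2 * p.1 + (if p.2 then 1 else 0), by have := p.1.2; split_ifs <;> omega⟩
  invFun x := (blk x, decide ((x : ℕ) % 2 = 1))
  left_inv := by
    rintro ⟨j, b⟩
    cases b
    · ext1
      · apply Fin.ext; unfold blk; simp
      · simp
    · ext1
      · apply Fin.ext; unfold blk; simp; omega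
      · simp [Nat.add_mod]
  right_inv := by
    intro x
    apply Fin.ext
    simp only [blk, decide_eq_true_eq]
    split_ifs <;> omega

theorem eqv_false (j : Fin n) : eqv n (j, false) = od j := by
  apply Fin.ext; simp [eqv, od]

theorem eqv_true (j : Fin n) : eqv n (j, true) = partner n (od j) := by
  apply Fin.ext; rw [partner_od_val]; simp [eqv]

theorem blk_eqv (p : Fin n × Bool) : blk (eqv n p) = p.1 := by
  have : (eqv n).symm (eqv n p) = p := by simp
  exact congrArg Prod.fst this

theorem partner_eqv (p : Fin n × Bool) : partner n (eqv n p) = eqv n (p.1, !p.2) := by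
  obtain ⟨j, b⟩ := p
  cases b
  · rw [eqv_false]; simp only [Bool.not_false]; rw [eqv_true]
  · rw [eqv_true, partner_partner]; simp only [Bool.not_true]; rw [eqv_false]

/-- the embedding of `S_n` acting on the letters `2j` -/
noncomputable def iota : Perm (Fin n) →* Perm (Fin (2 * n)) :=
  Perm.viaEmbeddingHom ⟨od, od_injective⟩

theorem iota_od (π : Perm (Fin n)) (j : Fin n) : iota π (od j) = od (π j) :=
  Perm.viaEmbedding_apply π ⟨od, od_injective⟩ j

theorem partner_od_ne (i j : Fin n) : od i ≠ partner n (od j) := by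
  intro h
  have := congrArg Fin.val h
  rw [partner_od_val, od_val] at this; omega

theorem iota_partner_od (π : Perm (Fin n)) (j : Fin n) :
    iota π (partner n (od j)) = partner n (od j) := by
  apply Perm.viaEmbedding_apply_of_notMem
  rintro ⟨i, hi⟩
  exact partner_od_ne i j hi

theorem letter_cases (x : Fin (2 * n)) : x = od (blk x) ∨ x = partner n (od (blk x)) := by
  apply blk_eq_iff.mp
  rw [blk_od]

theorem perm_ext {σ ρ : Perm (Fin (2 * n))} (h1 : ∀ j, σ (od j) = ρ (od j))
    (h2 : ∀ j, σ (partner n (od j)) = ρ (partner n (od j))) : σ = ρ := by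
  ext1 x
  rcases letter_cases x with h | h
  · rw [h]; exact h1 _
  · rw [h]; exact h2 _

theorem iota_inv_od (π : Perm (Fin n)) (j : Fin n) : (iota π)⁻¹ (od j) = od (π⁻¹ j) := by
  rw [← map_inv, iota_od]

theorem iota_inv_partner_od (π : Perm (Fin n)) (j : Fin n) :
    (iota π)⁻¹ (partner n (od j)) = partner n (od j) := by
  rw [← map_inv, iota_partner_od]

theorem mat_iota_partner (π : Perm (Fin n)) (j : Fin n) :
    mat (iota π) (partner n (od j)) = od (π j) := by
  unfold mat
  simp only [Perm.mul_apply, tau_apply]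
  rw [iota_inv_partner_od, partner_partner, iota_od]

theorem mat_iota_od (π : Perm (Fin n)) (j : Fin n) :
    mat (iota π) (od j) = partner n (od (π⁻¹ j)) := by
  unfold mat
  simp only [Perm.mul_apply, tau_apply]
  rw [iota_inv_od, iota_partner_od]

theorem iota_swap (a b : Fin n) : iota (swap a b) = swap (od a) (od b) := by
  apply perm_ext
  · intro j
    rw [iota_od]
    by_cases ha : j = a
    · rw [ha]; simp
    by_cases hb : j = b
    · rw [hb]; simp
    rw [swap_apply_of_ne_of_ne ha hb, swap_apply_of_ne_of_ne]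
    · exact fun h => ha (od_injective h)
    · exact fun h => hb (od_injective h)
  · intro j
    rw [iota_partner_od, swap_apply_of_ne_of_ne]
    · exact (partner_od_ne _ _).symm
    · exact (partner_od_ne _ _).symm

/-- the diagonal embedding of `S_n` into the hyperoctahedral group -/
def diag (g : Perm (Fin n)) : Perm (Fin (2 * n)) :=
  (eqv n).permCongr (Equiv.prodCongr g (Equiv.refl Bool))

theorem diag_eqv (g : Perm (Fin n)) (p : Fin n × Bool) : diag g (eqv n p) = eqv n (g p.1, p.2) := by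
  unfold diag; simp [Equiv.permCongr_apply]; rfl

theorem diag_inH (g : Perm (Fin n)) : InH n (diag g) := by
  intro x
  obtain ⟨p, rfl⟩ := (eqv n).surjective x
  rw [partner_eqv, diag_eqv, diag_eqv, partner_eqv]

theorem diag_conj (g π : Perm (Fin n)) : diag g * iota π = iota (g * π * g⁻¹) * diag g := by
  apply perm_ext
  · intro j
    simp only [Perm.mul_apply]
    rw [iota_od, ← eqv_false, ← eqv_false, diag_eqv, diag_eqv, eqv_false, eqv_false, iota_od]
    simp
  · intro j
    simp only [Perm.mul_apply]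
    rw [iota_partner_od, ← eqv_true, diag_eqv, eqv_true, iota_partner_od]

/-- same double coset -/
def DC (σ ρ : Perm (Fin (2 * n))) : Prop := ∃ ζ ζ', InH n ζ ∧ InH n ζ' ∧ ρ = ζ * σ * ζ'

theorem DC.refl (σ : Perm (Fin (2 * n))) : DC σ σ := ⟨1, 1, inH_one, inH_one, by simp⟩

theorem DC.symm {σ ρ : Perm (Fin (2 * n))} (h : DC σ ρ) : DC ρ σ := by
  obtain ⟨ζ, ζ', h1, h2, rfl⟩ := h
  exact ⟨ζ⁻¹, ζ'⁻¹, inH_inv h1, inH_inv h2, by group⟩

theorem DC.trans {σ ρ κ : Perm (Fin (2 * n))} (h : DC σ ρ) (h' : DC ρ κ) : DC σ κ := by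
  obtain ⟨ζ, ζ', h1, h2, rfl⟩ := h
  obtain ⟨η, η', h3, h4, rfl⟩ := h'
  exact ⟨η * ζ, ζ' * η', inH_mul h3 h1, inH_mul h2 h4, by group⟩

theorem DC_of_conj {π π' : Perm (Fin n)} (h : IsConj π π') : DC (iota π) (iota π') := by
  obtain ⟨g, rfl⟩ := isConj_iff.mp h
  refine ⟨diag g, (diag g)⁻¹, diag_inH g, inH_inv (diag_inH g), ?_⟩
  rw [diag_conj]; group

theorem DC_of_mat {σ ρ : Perm (Fin (2 * n))} (h : mat σ = mat ρ) : DC σ ρ :=
  ⟨1, σ⁻¹ * ρ, inH_one, mat_eq_iff.mp h, by group⟩

/-- a permutation preserves a set of blocks -/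
def Pres (T : Finset (Fin n)) (w : Perm (Fin (2 * n))) : Prop := ∀ x, blk (w x) ∈ T ↔ blk x ∈ T

theorem Pres.one (T : Finset (Fin n)) : Pres T (1 : Perm (Fin (2 * n))) := fun _ => Iff.rfl

theorem Pres.mul {T : Finset (Fin n)} {w w' : Perm (Fin (2 * n))} (h : Pres T w) (h' : Pres T w') :
    Pres T (w * w') := fun x => (h (w' x)).trans (h' x)

theorem Pres.inv {T : Finset (Fin n)} {w : Perm (Fin (2 * n))} (h : Pres T w) : Pres T w⁻¹ := by
  intro x
  rw [← h]; simp

theorem Pres.tau (T : Finset (Fin n)) : Pres T (tau n) := by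
  intro x; rw [tau_apply, blk_partner]

theorem Pres.mat {T : Finset (Fin n)} {w : Perm (Fin (2 * n))} (h : Pres T w) : Pres T (mat w) :=
  (h.mul (Pres.tau T)).mul h.inv

theorem pres_of_mat {T : Finset (Fin n)} {w : Perm (Fin (2 * n))} (h : Pres T w)
    {π : Perm (Fin n)} (hw : OJM.mat w = OJM.mat (iota π)) (j : Fin n) : π j ∈ T ↔ j ∈ T := by
  have h1 := h.mat
  rw [hw] at h1
  have h2 := h1 (partner n (od j))
  rwa [mat_iota_partner, blk_partner, blk_od, blk_od] at h2

end Pool.Agent.Helper51.OJM
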