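import Pool.Agent.Helper51.OJM.Sub
import Pool.Agent.Helper51.OJM.Iota

namespace Pool.Agent.Helper51.OJM

open Equiv Finset
open scoped Pointwise

variable {n : ℕ}

/-- the coefficients of `a` are natural numbers, nonzero exactly on `S` -/
def Good (a : GA n) (S : Set (Perm (Fin (2 * n)))) : Prop :=
  ∃ k : Perm (Fin (2 * n)) → ℕ, (∀ g, a.coeff g = k g) ∧ ∀ g, k g ≠ 0 ↔ g ∈ S

theorem Good.coeff_ne {a : GA n} {S : Set (Perm (Fin (2 * n)))} (h : Good a S) (g) :
    a.coeff g ≠ 0 ↔ g ∈ S := by
  obtain ⟨k, h1, h2⟩ := h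
  rw [h1, ← h2]; exact Nat.cast_ne_zero

theorem good_single (w : Perm (Fin (2 * n))) : Good (MonoidAlgebra.single w (1 : ℂ)) {w} := by
  classical
  refine ⟨fun g => if g = w then 1 else 0, fun g => ?_, fun g => ?_⟩
  · rw [MonoidAlgebra.coeff_single, Finsupp.single_apply]
    dsimp only
    by_cases h : w = g
    · rw [if_pos h, if_pos h.symm]; simp
    · rw [if_neg h, if_neg (Ne.symm h)]; simp
  · simp

theorem good_one : Good (1 : GA n) 1 := good_single 1

theorem good_zero : Good (0 : GA n) ∅ := ⟨fun _ => 0, fun g => by simp, fun g => by simp⟩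

theorem Good.add {a b : GA n} {S T : Set (Perm (Fin (2 * n)))} (ha : Good a S) (hb : Good b T) :
    Good (a + b) (S ∪ T) := by
  obtain ⟨k, h1, h2⟩ := ha
  obtain ⟨l, h3, h4⟩ := hb
  refine ⟨fun g => k g + l g, fun g => ?_, fun g => ?_⟩
  · rw [MonoidAlgebra.coeff_add, Finsupp.add_apply, h1, h3]; push_cast; rfl
  · rw [Set.mem_union, ← h2, ← h4]
    show k g + l g ≠ 0 ↔ _
    omega

theorem Good.sum {ι : Type*} (s : Finset ι) (a : ι → GA n) (S : ι → Set (Perm (Fin (2 * n))))
    (h : ∀ i ∈ s, Good (a i) (S i)) : Good (∑ i ∈ s, a i) {g | ∃ i ∈ s, g ∈ S i} := by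
  classical
  induction s using Finset.induction_on with
  | empty => simpa using good_zero
  | insert i s hi ih =>
    rw [Finset.sum_insert hi]
    have h1 := (h i (Finset.mem_insert_self i s)).add
      (ih (fun j hj => h j (Finset.mem_insert_of_mem hj)))
    convert h1 using 1
    ext g
    simp only [Finset.mem_insert, Set.mem_ofPred_eq, Set.mem_union]
    constructor
    · rintro ⟨j, rfl | hj, hg⟩
      · left; exact hg
      · right; exact ⟨j, hj, hg⟩
    · rintro (hg | ⟨j, hj, hg⟩)
      · exact ⟨i, Or.inl rfl, hg⟩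
      · exact ⟨j, Or.inr hj, hg⟩

theorem Good.mul {a b : GA n} {S T : Set (Perm (Fin (2 * n)))} (ha : Good a S) (hb : Good b T) :
    Good (a * b) (S * T) := by
  obtain ⟨k, h1, h2⟩ := ha
  obtain ⟨l, h3, h4⟩ := hb
  refine ⟨fun g => ∑ h, k h * l (h⁻¹ * g), fun g => ?_, fun g => ?_⟩
  · rw [MonoidAlgebra.coeff_mul_apply_left, Finsupp.sum_fintype _ _ (fun i => zero_mul _)]
    push_cast
    apply Finset.sum_congr rfl
    intro h _
    rw [h1, h3]
  · rw [Set.mem_mul, Ne, Finset.sum_eq_zero_iff]
    push Not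
    constructor
    · rintro ⟨h, _, hh⟩
      refine ⟨h, (h2 h).mp (fun e => hh (by rw [e, zero_mul])), h⁻¹ * g,
        (h4 _).mp (fun e => hh (by rw [e, mul_zero])), by group⟩
    · rintro ⟨x, hx, y, hy, rfl⟩
      refine ⟨x, Finset.mem_univ x, mul_ne_zero ((h2 x).mpr hx) ?_⟩
      rw [inv_mul_cancel_left]; exact (h4 y).mpr hy

theorem Good.pow {a : GA n} {S : Set (Perm (Fin (2 * n)))} (ha : Good a S) (r : ℕ) :
    Good (a ^ r) (S ^ r) := by
  induction r with
  | zero => rw [pow_zero, pow_zero]; exact good_one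
  | succ r ih => rw [pow_succ, pow_succ]; exact ih.mul ha

theorem Good.listProd {ι : Type*} (l : List ι) (a : ι → GA n) (S : ι → Set (Perm (Fin (2 * n))))
    (h : ∀ i ∈ l, Good (a i) (S i)) : Good (l.map a).prod (l.map S).prod := by
  induction l with
  | nil => simpa using good_one
  | cons i l ih =>
    rw [List.map_cons, List.prod_cons, List.map_cons, List.prod_cons]
    exact (h i (by simp)).mul (ih (fun j hj => h j (by simp [hj])))

theorem good_P : Good (P n) {σ | InH n σ} := by
  classical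
  refine ⟨fun g => if InH n g then 1 else 0, fun g => ?_, fun g => ?_⟩
  · rw [P_coeff]; split_ifs <;> simp_all
  · show (if InH n g then 1 else 0) ≠ 0 ↔ InH n g
    split_ifs <;> simp_all

/-- the transpositions in `J_k` -/
def St (k : Fin n) : Set (Perm (Fin (2 * n))) := {w | ∃ i : Fin (2 * n), (i : ℕ) < 2 * k ∧ w = swap i (od k)}

theorem good_oddJM (k : Fin n) : Good (oddJM n k) (St k) := by
  rw [oddJM_def]
  convert Good.sum (univ.filter (fun i : Fin (2 * n) => (i : ℕ) < 2 * k))
    (fun i => MonoidAlgebra.single (swap i (od k)) (1 : ℂ))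
    (fun i => {swap i (od k)}) (fun i _ => good_single _) using 1
  ext w
  simp [St]

/-- the support of the power sum -/
def Star (n r : ℕ) : Set (Perm (Fin (2 * n))) := {w | ∃ k : Fin n, w ∈ St k ^ r}

theorem good_psum (r : ℕ) : Good (ev n (MvPolynomial.psum (Fin n) ℂ r)) (Star n r) := by
  unfold MvPolynomial.psum
  rw [map_sum]
  convert Good.sum univ _ (fun k : Fin n => St k ^ r)
    (fun k _ => (good_oddJM k).pow r) using 1
  · apply Finset.sum_congr rfl
    intro k _
    rw [map_pow, ev_X]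
  · ext w
    simp [Star]

/-- products of power sums -/
noncomputable def FF (n : ℕ) (rs : List ℕ) : MvPolynomial (Fin n) ℂ :=
  (rs.map (fun r => MvPolynomial.psum (Fin n) ℂ r)).prod

theorem FF_symm (rs : List ℕ) : (FF n rs).IsSymmetric := by
  unfold FF
  induction rs with
  | nil => simp [MvPolynomial.IsSymmetric.one]
  | cons r rs ih =>
    rw [List.map_cons, List.prod_cons]
    exact (MvPolynomial.psum_isSymmetric (Fin n) ℂ r).mul ih

theorem good_FF (rs : List ℕ) :
    Good (ev n (FF n rs) * P n) ((rs.map (Star n)).prod * {σ | InH n σ}) := by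
  apply Good.mul _ good_P
  unfold FF
  rw [map_list_prod, List.map_map]
  exact Good.listProd rs _ _ (fun r _ => good_psum r)

end Pool.Agent.Helper51.OJM
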