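import Pool.Agent.Helper51.OJM.Final

namespace Pool.Agent.Helper51.OJM

open Equiv Finset

variable {n : ℕ}

/-- inclusion of the first `n` variables -/
def vl (n : ℕ) : Fin n → ℕ := fun j => (j : ℕ)

theorem vl_inj : Function.Injective (vl n) := Fin.val_injective

theorem vl_apply (j : Fin n) : vl n j = (j : ℕ) := rfl

theorem map_apply (m : Fin n →₀ ℕ) (j : Fin n) : m.mapDomain (vl n) (j : ℕ) = m j :=
  Finsupp.mapDomain_apply vl_inj m j

theorem map_apply_ge (m : Fin n →₀ ℕ) (x : ℕ) (hx : n ≤ x) : m.mapDomain (vl n) x = 0 := by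
  apply Finsupp.mapDomain_of_notMem_range
  rintro ⟨j, hj⟩
  rw [vl_apply] at hj
  omega

/-- restriction to the first `n` variables -/
theorem exists_res (F : MvPowerSeries ℕ ℂ) (d : ℕ)
    (hd : ∀ m : ℕ →₀ ℕ, d < m.degree → MvPowerSeries.coeff m F = 0) :
    ∃ f : MvPolynomial (Fin n) ℂ, ∀ m, f.coeff m = MvPowerSeries.coeff (m.mapDomain (vl n)) F := by
  classical
  have hfin : {m : Fin n →₀ ℕ | m.degree ≤ d}.Finite := Finsupp.finite_of_degree_le d
  refine ⟨∑ m ∈ hfin.toFinset,
    MvPolynomial.monomial m (MvPowerSeries.coeff (m.mapDomain (vl n)) F), fun m => ?_⟩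
  rw [MvPolynomial.coeff_sum]
  simp only [MvPolynomial.coeff_monomial]
  rw [Finset.sum_ite_eq']
  split_ifs with h
  · rfl
  · symm
    apply hd
    rw [Finsupp.degree_mapDomain]
    simpa using h

theorem evalOdd_eq (F : MvPowerSeries ℕ ℂ) (f : MvPolynomial (Fin n) ℂ)
    (h : ∀ m, f.coeff m = MvPowerSeries.coeff (m.mapDomain (vl n)) F) : evalOdd n F = ev n f := by
  rw [ev_eq]
  unfold evalOdd
  have h1 : ∀ m : Fin n →₀ ℕ, MvPowerSeries.coeff (m.mapDomain (fun j : Fin n => (j : ℕ))) F =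
      f.coeff m := fun m => (h m).symm
  simp only [h1]
  apply finsum_eq_sum_of_support_subset
  intro m hm
  rw [Function.mem_support] at hm
  rw [Finset.mem_coe, MvPolynomial.mem_support_iff]
  intro h0
  exact hm (by rw [h0, zero_smul])

/-- extension of a permutation to all variables -/
theorem exists_ext (e : Perm (Fin n)) : ∃ e' : Perm ℕ, ∀ j : Fin n, e' (j : ℕ) = (e j : ℕ) :=
  ⟨e.viaEmbedding ⟨vl n, vl_inj⟩, fun j => e.viaEmbedding_apply ⟨vl n, vl_inj⟩ j⟩

theorem res_symm {F : MvPowerSeries ℕ ℂ}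
    (hF : ∀ (e : Perm ℕ) (m : ℕ →₀ ℕ),
      MvPowerSeries.coeff (m.mapDomain e) F = MvPowerSeries.coeff m F)
    {f : MvPolynomial (Fin n) ℂ}
    (h : ∀ m, f.coeff m = MvPowerSeries.coeff (m.mapDomain (vl n)) F) : f.IsSymmetric := by
  intro e
  ext m
  obtain ⟨m', rfl⟩ : ∃ m' : Fin n →₀ ℕ, m = m'.mapDomain e := by
    refine ⟨m.mapDomain e.symm, ?_⟩
    rw [← Finsupp.mapDomain_comp]
    simp
  rw [MvPolynomial.coeff_rename_mapDomain _ e.injective, h, h]
  obtain ⟨e', he'⟩ := exists_ext e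
  have h1 : (m'.mapDomain e).mapDomain (vl n) = (m'.mapDomain (vl n)).mapDomain e' := by
    rw [← Finsupp.mapDomain_comp, ← Finsupp.mapDomain_comp]
    congr 1
    funext j
    simp only [Function.comp_apply, vl_apply]
    exact (he' j).symm
  rw [h1, hF]

/-- the key point about monomials -/
theorem orbit_lemma {f : MvPolynomial (Fin n) ℂ} (hf : f.IsSymmetric) (m m' : Fin n →₀ ℕ)
    (e : Perm ℕ) (h : (m.mapDomain (vl n)).mapDomain e = m'.mapDomain (vl n)) :
    f.coeff m = f.coeff m' := by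
  classical
  have h1 : ∀ x : ℕ, m'.mapDomain (vl n) (e x) = m.mapDomain (vl n) x := by
    intro x; rw [← h, Finsupp.mapDomain_apply e.injective]
  have hlt : ∀ j : Fin n, m j ≠ 0 → (e (j : ℕ)) < n := by
    intro j hj
    by_contra hcon
    apply hj
    rw [← map_apply, ← h1, map_apply_ge _ _ (by omega)]
  have hlt' : ∀ j : Fin n, m' j ≠ 0 → (e.symm (j : ℕ)) < n := by
    intro j hj
    by_contra hcon
    apply hj
    have := h1 (e.symm (j : ℕ))
    rw [Equiv.apply_symm_apply] at this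
    rw [← map_apply, this, map_apply_ge _ _ (by omega)]
  let E : {x : Fin n // m x ≠ 0} ≃ {x : Fin n // m' x ≠ 0} :=
    { toFun := fun x => ⟨⟨e (x.1 : ℕ), hlt x.1 x.2⟩, by
        have := h1 (x.1 : ℕ)
        rw [map_apply] at this
        intro h0
        exact x.2 (this.symm.trans ((map_apply m' ⟨e (x.1 : ℕ), hlt x.1 x.2⟩).trans h0))⟩
      invFun := fun x => ⟨⟨e.symm (x.1 : ℕ), hlt' x.1 x.2⟩, by
        have := h1 (e.symm (x.1 : ℕ))
        rw [Equiv.apply_symm_apply, map_apply] at this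
        intro h0
        exact x.2 (this.trans ((map_apply m ⟨e.symm (x.1 : ℕ), hlt' x.1 x.2⟩).trans h0))⟩
      left_inv := fun x => by
        apply Subtype.ext; apply Fin.ext; simp
      right_inv := fun x => by
        apply Subtype.ext; apply Fin.ext; simp }
  have h2 : m.mapDomain E.extendSubtype = m' := by
    ext j
    obtain ⟨i, rfl⟩ := E.extendSubtype.surjective j
    rw [Finsupp.mapDomain_apply E.extendSubtype.injective]
    by_cases hi : m i ≠ 0
    · rw [E.extendSubtype_apply_of_mem i hi]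
      have := h1 (i : ℕ)
      rw [map_apply] at this
      rw [← this, ← map_apply]
      rfl
    · have h3 := E.extendSubtype_not_mem i hi
      rw [not_not] at h3 hi
      rw [h3, hi]
  have h4 := hf E.extendSubtype
  have h5 := congrArg (fun g => MvPolynomial.coeff (m.mapDomain E.extendSubtype) g) h4
  rw [MvPolynomial.coeff_rename_mapDomain _ E.extendSubtype.injective, h2] at h5
  exact h5

open Classical in
/-- the lift of a symmetric polynomial to a symmetric function -/
noncomputable def lift (f : MvPolynomial (Fin n) ℂ) : MvPowerSeries ℕ ℂ := fun m =>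
  if h : ∃ m' : Fin n →₀ ℕ, ∃ e : Perm ℕ, (m'.mapDomain (vl n)).mapDomain e = m then
    f.coeff h.choose else 0

theorem lift_coeff {f : MvPolynomial (Fin n) ℂ} (hf : f.IsSymmetric) (m' : Fin n →₀ ℕ)
    (e : Perm ℕ) : MvPowerSeries.coeff ((m'.mapDomain (vl n)).mapDomain e) (lift f) =
      f.coeff m' := by
  classical
  have h : ∃ m'' : Fin n →₀ ℕ, ∃ e' : Perm ℕ,
      (m''.mapDomain (vl n)).mapDomain e' = (m'.mapDomain (vl n)).mapDomain e := ⟨m', e, rfl⟩
  have h1 : MvPowerSeries.coeff ((m'.mapDomain (vl n)).mapDomain e) (lift f) =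
      f.coeff h.choose := by
    show lift f _ = _
    unfold lift
    rw [dif_pos h]
  rw [h1]
  obtain ⟨e', he'⟩ := h.choose_spec
  apply orbit_lemma hf _ _ (e⁻¹ * e')
  rw [Perm.coe_mul, Finsupp.mapDomain_comp, he', ← Finsupp.mapDomain_comp, ← Perm.coe_mul,
    inv_mul_cancel, Perm.coe_one, Finsupp.mapDomain_id]

theorem lift_mem {f : MvPolynomial (Fin n) ℂ} (hf : f.IsSymmetric) : lift f ∈ SymFun := by
  classical
  refine ⟨⟨f.totalDegree, fun m hm => ?_⟩, fun e m => ?_⟩
  · by_cases h : ∃ m' : Fin n →₀ ℕ, ∃ e : Perm ℕ, (m'.mapDomain (vl n)).mapDomain e = m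
    · obtain ⟨m', e, rfl⟩ := h
      rw [lift_coeff hf]
      rw [Finsupp.degree_mapDomain, Finsupp.degree_mapDomain] at hm
      by_contra hne
      have h1 := MvPolynomial.le_totalDegree (MvPolynomial.mem_support_iff.mpr hne)
      have h2 : m'.degree = m'.sum fun _ e => e := rfl
      omega
    · show lift f m = 0
      unfold lift
      rw [dif_neg h]
  · by_cases h : ∃ m' : Fin n →₀ ℕ, ∃ e : Perm ℕ, (m'.mapDomain (vl n)).mapDomain e = m
    · obtain ⟨m', e', rfl⟩ := h
      have h1 : ((m'.mapDomain (vl n)).mapDomain e').mapDomain e =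
          (m'.mapDomain (vl n)).mapDomain (e * e') := by
        rw [Perm.coe_mul, Finsupp.mapDomain_comp]
      rw [h1, lift_coeff hf, lift_coeff hf]
    · have h' : ¬ ∃ m' : Fin n →₀ ℕ, ∃ e' : Perm ℕ,
          (m'.mapDomain (vl n)).mapDomain e' = m.mapDomain e := by
        rintro ⟨m', e', he'⟩
        apply h
        refine ⟨m', e⁻¹ * e', ?_⟩
        rw [Perm.coe_mul, Finsupp.mapDomain_comp, he', ← Finsupp.mapDomain_comp, ← Perm.coe_mul,
          inv_mul_cancel, Perm.coe_one, Finsupp.mapDomain_id]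
      show lift f _ = lift f _
      unfold lift
      rw [dif_neg h, dif_neg h']

theorem lift_res {f : MvPolynomial (Fin n) ℂ} (hf : f.IsSymmetric) (m : Fin n →₀ ℕ) :
    f.coeff m = MvPowerSeries.coeff (m.mapDomain (vl n)) (lift f) := by
  have h := lift_coeff hf m 1
  rw [Perm.coe_one, Finsupp.mapDomain_id] at h
  exact h.symm

theorem main (n : ℕ) : {x | ∃ F ∈ SymFun, x = evalOdd n F * P n} = Hecke n := by
  ext x
  rw [← main_poly, Set.mem_ofPred_eq]
  constructor
  · rintro ⟨F, ⟨⟨d, hd⟩, hF⟩, rfl⟩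
    obtain ⟨f, hf⟩ := exists_res (n := n) F d hd
    exact ⟨f, res_symm hF hf, by rw [evalOdd_eq F f hf]⟩
  · rintro ⟨f, hf, rfl⟩
    exact ⟨lift f, lift_mem hf, by rw [evalOdd_eq (lift f) f (lift_res hf)]⟩

end Pool.Agent.Helper51.OJM
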