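import Pool.Agent.Helper51.OJM.Gen

namespace Pool.Agent.Helper51.OJM

open Equiv Finset

variable {n : ℕ}

theorem Hecke_left {a : GA n} (ha : a ∈ Hecke n) {ζ : Perm (Fin (2 * n))} (h : InH n ζ) :
    MonoidAlgebra.single ζ (1 : ℂ) * a = a := by
  ext σ
  rw [single_mul_coeff]
  have := ha σ ζ⁻¹ 1 (inH_inv h) inH_one
  rwa [mul_one] at this

theorem Hecke_right {a : GA n} (ha : a ∈ Hecke n) {ζ : Perm (Fin (2 * n))} (h : InH n ζ) :
    a * MonoidAlgebra.single ζ (1 : ℂ) = a := by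
  ext σ
  rw [mul_single_coeff]
  have := ha σ 1 ζ⁻¹ inH_one (inH_inv h)
  rwa [one_mul] at this

theorem mem_Hecke_of {a : GA n}
    (hl : ∀ ζ : Perm (Fin (2 * n)), InH n ζ → MonoidAlgebra.single ζ (1 : ℂ) * a = a)
    (hr : ∀ ζ : Perm (Fin (2 * n)), InH n ζ → a * MonoidAlgebra.single ζ (1 : ℂ) = a) :
    a ∈ Hecke n := by
  intro σ ζ ζ' h h'
  have h1 := congrArg (fun b : GA n => b.coeff (ζ * σ * ζ')) (hl ζ h)
  have h2 := congrArg (fun b : GA n => b.coeff (σ * ζ')) (hr ζ' h')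
  simp only [single_mul_coeff, mul_single_coeff] at h1 h2
  have e1 : ζ⁻¹ * (ζ * σ * ζ') = σ * ζ' := by group
  have e2 : σ * ζ' * ζ'⁻¹ = σ := by group
  rw [e1] at h1
  rw [e2] at h2
  rw [← h1, h2]

theorem P_mul {a : GA n} (ha : a ∈ Hecke n) : ∃ c : ℂ, c ≠ 0 ∧ P n * a = c • a := by
  classical
  refine ⟨((univ.filter (InH n)).card : ℂ), ?_, ?_⟩
  · have : 0 < (univ.filter (InH n)).card := Finset.card_pos.mpr ⟨1, by simp [inH_one]⟩
    exact_mod_cast this.ne'
  · have hP : P n = ∑ σ ∈ univ.filter (InH n), MonoidAlgebra.single σ (1 : ℂ) := by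
      unfold P; congr
    rw [hP, Finset.sum_mul, Finset.sum_congr rfl (g := fun _ => a), Finset.sum_const,
      ← Nat.cast_smul_eq_nsmul ℂ]
    intro σ hσ
    exact Hecke_left ha (Finset.mem_filter.mp hσ).2

theorem P_right {ζ : Perm (Fin (2 * n))} (h : InH n ζ) :
    P n * MonoidAlgebra.single ζ (1 : ℂ) = P n := by
  classical
  ext σ
  rw [mul_single_coeff, P_coeff, P_coeff]
  have : InH n (σ * ζ⁻¹) ↔ InH n σ := by
    constructor
    · intro h1
      have := inH_mul h1 h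
      rwa [inv_mul_cancel_right] at this
    · intro h1; exact inH_mul h1 (inH_inv h)
  simp only [this]

theorem P_mem : P n ∈ Hecke n := by
  classical
  intro σ ζ ζ' h h'
  rw [P_coeff, P_coeff]
  have : InH n (ζ * σ * ζ') ↔ InH n σ := by
    constructor
    · intro h1
      have := inH_mul (inH_mul (inH_inv h) h1) (inH_inv h')
      have e : ζ⁻¹ * (ζ * σ * ζ') * ζ'⁻¹ = σ := by group
      rwa [e] at this
    · intro h1; exact inH_mul (inH_mul h h1) h'
  simp only [this]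

theorem Hecke_add {a b : GA n} (ha : a ∈ Hecke n) (hb : b ∈ Hecke n) : a + b ∈ Hecke n := by
  intro σ ζ ζ' h h'
  rw [MonoidAlgebra.coeff_add, Finsupp.add_apply, Finsupp.add_apply, ha σ ζ ζ' h h',
    hb σ ζ ζ' h h']

theorem Hecke_smul {a : GA n} (c : ℂ) (ha : a ∈ Hecke n) : c • a ∈ Hecke n := by
  intro σ ζ ζ' h h'
  rw [MonoidAlgebra.coeff_smul, Finsupp.smul_apply, Finsupp.smul_apply, ha σ ζ ζ' h h']

theorem Hecke_mul {a b : GA n} (ha : a ∈ Hecke n) (hb : b ∈ Hecke n) : a * b ∈ Hecke n := by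
  apply mem_Hecke_of
  · intro ζ h; rw [← mul_assoc, Hecke_left ha h]
  · intro ζ h; rw [mul_assoc, Hecke_right hb h]

/-- the polynomials `F` with `F(J) P` in the Hecke algebra -/
noncomputable def SS (n : ℕ) : Subalgebra ℂ (MvPolynomial (Fin n) ℂ) where
  carrier := {F | ev n F * P n ∈ Hecke n}
  mul_mem' := by
    intro F G hF hG
    simp only [Set.mem_ofPred_eq] at hF hG ⊢
    obtain ⟨c, hc, h1⟩ := P_mul hG
    have h2 : ev n (F * G) * P n = c⁻¹ • ((ev n F * P n) * (ev n G * P n)) := by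
      rw [mul_assoc, h1, mul_smul_comm, smul_smul, inv_mul_cancel₀ hc, one_smul, map_mul, mul_assoc]
    rw [h2]
    exact Hecke_smul _ (Hecke_mul hF hG)
  add_mem' := by
    intro F G hF hG
    simp only [Set.mem_ofPred_eq] at hF hG ⊢
    rw [map_add, add_mul]
    exact Hecke_add hF hG
  algebraMap_mem' := by
    intro c
    simp only [Set.mem_ofPred_eq]
    rw [AlgHom.commutes, ← Algebra.smul_def]
    exact Hecke_smul _ P_mem

theorem mem_SS {F : MvPolynomial (Fin n) ℂ} : F ∈ SS n ↔ ev n F * P n ∈ Hecke n := Iff.rfl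

theorem symm_mem {F : MvPolynomial (Fin n) ℂ} (hF : F.IsSymmetric) : ev n F * P n ∈ Hecke n := by
  have h1 : Function.Surjective (MvPolynomial.esymmAlgHom (Fin n) ℂ n) :=
    MvPolynomial.esymmAlgHom_surjective (σ := Fin n) ℂ (by simp)
  obtain ⟨G, hG⟩ := h1 ⟨F, hF⟩
  have h2 : F = MvPolynomial.aeval (fun i : Fin n ↦ MvPolynomial.esymm (Fin n) ℂ (i + 1)) G := by
    rw [← MvPolynomial.esymmAlgHom_apply, hG]
  rw [← mem_SS, h2]
  have h3 : ∀ i : Fin n, MvPolynomial.esymm (Fin n) ℂ (i + 1) ∈ SS n := by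
    intro i
    exact ev_esymm_Hecke (i + 1) (by omega)
  have h4 : MvPolynomial.aeval (fun i : Fin n ↦ MvPolynomial.esymm (Fin n) ℂ (i + 1)) =
      (SS n).val.comp (MvPolynomial.aeval (fun i : Fin n => (⟨_, h3 i⟩ : SS n))) := by
    apply MvPolynomial.algHom_ext
    intro i
    simp
  rw [h4]
  exact Subtype.coe_prop _

end Pool.Agent.Helper51.OJM
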