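import Pool.Agent.Helper51.OJM.Good

namespace Pool.Agent.Helper51.OJM

open Equiv Finset
open scoped Pointwise

variable {n : ℕ}

/-- the letters outside the blocks in `A` are fixed -/
def FixOut (A : Finset (Fin n)) (w : Perm (Fin (2 * n))) : Prop := ∀ x, blk x ∉ A → w x = x

theorem FixOut.pres {A T : Finset (Fin n)} {w : Perm (Fin (2 * n))} (h : FixOut A w)
    (hAT : A ⊆ T ∨ Disjoint A T) : Pres T w := by
  intro x
  by_cases hx : blk x ∈ A
  · have hwx : blk (w x) ∈ A := by
      by_contra hcon
      have h1 := w.injective (h _ hcon)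
      rw [h1] at hcon; exact hcon hx
    rcases hAT with hT | hT
    · exact ⟨fun _ => hT hx, fun _ => hT hwx⟩
    · rw [Finset.disjoint_left] at hT
      exact ⟨fun h1 => absurd h1 (hT hwx), fun h1 => absurd h1 (hT hx)⟩
  · rw [h x hx]

theorem St_pow_fix (k : Fin n) (r : ℕ) {w : Perm (Fin (2 * n))} (hw : w ∈ St k ^ r) :
    ∃ A : Finset (Fin n), k ∈ A ∧ A.card ≤ r + 1 ∧ FixOut A w := by
  induction r generalizing w with
  | zero =>
    rw [pow_zero, Set.mem_one] at hw
    exact ⟨{k}, by simp, by simp, fun x _ => by rw [hw]; rfl⟩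
  | succ r ih =>
    rw [pow_succ, Set.mem_mul] at hw
    obtain ⟨w', hw', s, ⟨i, hi, rfl⟩, rfl⟩ := hw
    obtain ⟨A, hk, hA, hfix⟩ := ih hw'
    refine ⟨insert (blk i) A, Finset.mem_insert_of_mem hk,
      (Finset.card_insert_le _ _).trans (by omega), ?_⟩
    intro x hx
    rw [Finset.mem_insert, not_or] at hx
    simp only [Perm.mul_apply]
    rw [swap_apply_of_ne_of_ne, hfix x hx.2]
    · rintro rfl; exact hx.1 rfl
    · rintro rfl; rw [blk_od] at hx; exact hx.2 hk

theorem Star_fix (r : ℕ) {w : Perm (Fin (2 * n))} (hw : w ∈ Star n r) :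
    ∃ A : Finset (Fin n), (A.card ≤ r + 1 ∧ A.Nonempty) ∧ FixOut A w := by
  obtain ⟨k, hk⟩ := hw
  obtain ⟨A, h1, h2, h3⟩ := St_pow_fix k r hk
  exact ⟨A, ⟨h2, ⟨k, h1⟩⟩, h3⟩

theorem list_fix (rs : List ℕ) {w : Perm (Fin (2 * n))} (hw : w ∈ (rs.map (Star n)).prod) :
    ∃ As : List (Finset (Fin n)), List.Forall₂ (fun r A => A.card ≤ r + 1 ∧ A.Nonempty) rs As ∧
      ∀ T : Finset (Fin n), (∀ A ∈ As, A ⊆ T ∨ Disjoint A T) → Pres T w := by
  induction rs generalizing w with
  | nil =>
    rw [List.map_nil, List.prod_nil, Set.mem_one] at hw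
    exact ⟨[], List.Forall₂.nil, fun T _ => by rw [hw]; exact Pres.one T⟩
  | cons r rs ih =>
    rw [List.map_cons, List.prod_cons, Set.mem_mul] at hw
    obtain ⟨w1, hw1, w2, hw2, rfl⟩ := hw
    obtain ⟨A, hA, hfix⟩ := Star_fix r hw1
    obtain ⟨As, hAs, hp⟩ := ih hw2
    refine ⟨A :: As, List.Forall₂.cons hA hAs, fun T hT => ?_⟩
    refine (hfix.pres (hT A (by simp))).mul (hp T (fun B hB => hT B (by simp [hB])))

/-- union of a list -/
def uni : List (Finset (Fin n)) → Finset (Fin n)
  | [] => ∅
  | A :: As => A ∪ uni As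

theorem mem_uni {As : List (Finset (Fin n))} {x : Fin n} : x ∈ uni As ↔ ∃ A ∈ As, x ∈ A := by
  induction As with
  | nil => simp [uni]
  | cons A As ih => simp [uni, ih]

theorem card_uni_le (As : List (Finset (Fin n))) : (uni As).card ≤ (As.map Finset.card).sum := by
  induction As with
  | nil => simp [uni]
  | cons A As ih =>
    rw [uni, List.map_cons, List.sum_cons]
    exact (Finset.card_union_le _ _).trans (by omega)

theorem pairwise_of_card (As : List (Finset (Fin n)))
    (h : (As.map Finset.card).sum ≤ (uni As).card) : As.Pairwise Disjoint := by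
  induction As with
  | nil => exact List.Pairwise.nil
  | cons A As ih =>
    rw [uni, List.map_cons, List.sum_cons] at h
    have h1 := Finset.card_union_le A (uni As)
    have h2 := card_uni_le As
    refine List.Pairwise.cons ?_ (ih (by omega))
    have h3 : Disjoint A (uni As) := by
      rw [← Finset.card_union_eq_card_add_card]; omega
    intro B hB
    rw [Finset.disjoint_left] at h3 ⊢
    exact fun x hx hxB => h3 hx (mem_uni.mpr ⟨B, hB, hxB⟩)

theorem forall_sum {rs : List ℕ} {As : List (Finset (Fin n))}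
    (h : List.Forall₂ (fun r A => A.card ≤ r + 1 ∧ A.Nonempty) rs As) :
    (As.map Finset.card).sum ≤ (rs.map (· + 1)).sum ∧
    ((rs.map (· + 1)).sum ≤ (As.map Finset.card).sum → As.map Finset.card = rs.map (· + 1)) ∧
    (∀ A ∈ As, A.Nonempty) ∧ As.length = rs.length := by
  induction h with
  | nil => simp
  | cons hA hAs ih =>
    obtain ⟨i1, i2, i3, i4⟩ := ih
    simp only [List.map_cons, List.sum_cons, List.length_cons]
    refine ⟨by omega, fun h => ?_, ?_, by omega⟩
    · rw [i2 (by omega)]
      congr 1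
      omega
    · intro B hB
      rcases List.mem_cons.mp hB with rfl | hB
      · exact hA.2
      · exact i3 B hB

theorem cyc_lemma (As : List (Finset (Fin n))) : ∀ π : Perm (Fin n), As.Pairwise Disjoint →
    (∀ A ∈ As, A.Nonempty) → (∀ A ∈ As, ∀ j, π j ∈ A ↔ j ∈ A) → π.support = uni As →
    (As.length < Multiset.card π.cycleType ∨ π.cycleType = ↑(As.map Finset.card)) := by
  classical
  induction As with
  | nil =>
    intro π _ _ _ hs
    right
    have : π = 1 := by rw [← Perm.support_eq_empty_iff]; exact hs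
    rw [this]; simp
  | cons A As ih =>
    intro π hpw hne hpres hs
    have hA := hpres A (by simp)
    rw [List.pairwise_cons] at hpw
    set π1 : Perm (Fin n) := Perm.ofSubtype (Perm.subtypePerm π hA) with hπ1
    have h1in : ∀ j, j ∈ A → π1 j = π j := by
      intro j hj
      rw [hπ1, Perm.ofSubtype_apply_of_mem _ hj, Perm.subtypePerm_apply]
    have h1out : ∀ j, j ∉ A → π1 j = j := by
      intro j hj
      rw [hπ1, Perm.ofSubtype_apply_of_not_mem _ hj]
    set π2 : Perm (Fin n) := π1⁻¹ * π with hπ2
    have h2in : ∀ j, j ∈ A → π2 j = j := by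
      intro j hj
      rw [hπ2, Perm.mul_apply, Perm.inv_eq_iff_eq, h1in j hj]
    have h2out : ∀ j, j ∉ A → π2 j = π j := by
      intro j hj
      rw [hπ2, Perm.mul_apply, Perm.inv_eq_iff_eq, h1out]
      rw [hA]; exact hj
    have hdisj : Perm.Disjoint π1 π2 := by
      intro j
      by_cases hj : j ∈ A
      · right; exact h2in j hj
      · left; exact h1out j hj
    have hmul : π = π1 * π2 := by rw [hπ2]; group
    have hsupp : ∀ j, π j ≠ j ↔ j ∈ A ∨ j ∈ uni As := by
      intro j; rw [← Perm.mem_support, hs, uni, Finset.mem_union]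
    have hAuni : Disjoint A (uni As) := by
      rw [Finset.disjoint_left]
      intro x hx hx2
      obtain ⟨B, hB, hxB⟩ := mem_uni.mp hx2
      exact Finset.disjoint_left.mp (hpw.1 B hB) hx hxB
    have hs1 : π1.support = A := by
      ext j
      rw [Perm.mem_support]
      by_cases hj : j ∈ A
      · rw [h1in j hj, hsupp]; tauto
      · rw [h1out j hj]; simp [hj]
    have hs2 : π2.support = uni As := by
      ext j
      rw [Perm.mem_support]
      by_cases hj : j ∈ A
      · rw [h2in j hj]
        have := Finset.disjoint_left.mp hAuni hj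
        simp [this]
      · rw [h2out j hj, hsupp]; tauto
    have hrec := ih π2 hpw.2 (fun B hB => hne B (by simp [hB])) (fun B hB j => by
      by_cases hj : j ∈ A
      · rw [h2in j hj]
      · rw [h2out j hj]; exact hpres B (by simp [hB]) j) hs2
    have hct : π.cycleType = π1.cycleType + π2.cycleType := by
      rw [hmul]; exact hdisj.cycleType_mul
    have hc1 : 0 < Multiset.card π1.cycleType := by
      rw [Perm.card_cycleType_pos]
      intro h
      obtain ⟨x, hx⟩ := hne A (by simp)
      rw [← hs1, h] at hx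
      simp at hx
    rw [hct, Multiset.card_add]
    rcases hrec with hrec | hrec
    · left; rw [List.length_cons]; omega
    · by_cases hc2 : Multiset.card π1.cycleType = 1
      · right
        obtain ⟨s, hs⟩ := Multiset.card_eq_one.mp hc2
        have h3 := Perm.sum_cycleType π1
        rw [hs, Multiset.sum_singleton, hs1] at h3
        rw [hrec, hs, h3, List.map_cons]
        rfl
      · left
        rw [hrec, List.length_cons, Multiset.coe_card, List.length_map]
        omega

theorem upper (rs : List ℕ) (π : Perm (Fin n))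
    (h : iota π ∈ (rs.map (Star n)).prod * {σ : Perm (Fin (2 * n)) | InH n σ}) :
    π.support.card < (rs.map (· + 1)).sum ∨
    (π.support.card = (rs.map (· + 1)).sum ∧
      (rs.length < Multiset.card π.cycleType ∨ π.cycleType = ↑(rs.map (· + 1)))) := by
  obtain ⟨w, hw, h', hh', hwh⟩ := Set.mem_mul.mp h
  have hmat : mat w = mat (iota π) := by rw [← hwh, mat_mul_right hh']
  obtain ⟨As, hAs, hp⟩ := list_fix rs hw
  obtain ⟨f1, f2, f3, f4⟩ := forall_sum hAs
  have hsub : π.support ⊆ uni As := by
    intro j hj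
    by_contra hcon
    have hT : ∀ A ∈ As, A ⊆ ({j} : Finset (Fin n)) ∨ Disjoint A {j} := by
      intro A hA
      right
      rw [Finset.disjoint_singleton_right]
      intro hjA
      exact hcon (mem_uni.mpr ⟨A, hA, hjA⟩)
    have h1 := (pres_of_mat (hp {j} hT) hmat j).mpr (Finset.mem_singleton_self j)
    rw [Finset.mem_singleton] at h1
    exact (Perm.mem_support.mp hj) h1
  have c1 := Finset.card_le_card hsub
  have c2 := card_uni_le As
  by_cases hlt : π.support.card < (rs.map (· + 1)).sum
  · left; exact hlt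
  right
  have e1 : π.support.card = (rs.map (· + 1)).sum := by omega
  refine ⟨e1, ?_⟩
  have e2 : As.map Finset.card = rs.map (· + 1) := f2 (by omega)
  have e3 : π.support = uni As := Finset.eq_of_subset_of_card_le hsub (by omega)
  have e4 := pairwise_of_card As (by omega)
  have e5 : ∀ A ∈ As, ∀ j, π j ∈ A ↔ j ∈ A := by
    intro A hA j
    apply pres_of_mat (hp A ?_) hmat
    intro B hB
    by_cases hBA : B = A
    · left; rw [hBA]
    · right
      have : Std.Symm (fun X Y : Finset (Fin n) => Disjoint X Y) := ⟨fun _ _ h => h.symm⟩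
      exact List.Pairwise.forall (R := fun X Y : Finset (Fin n) => Disjoint X Y) e4 hB hA hBA
  have e6 := cyc_lemma As π e4 f3 e5 e3
  rw [f4, e2] at e6
  exact e6

end Pool.Agent.Helper51.OJM
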